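import Pool.Agent.Helper1.ZC.LD

/-! Project ZC, piece CAS: the Casoratian. -/

set_option autoImplicit false

namespace Pool.ZC

open Finset Polynomial

/-- The Casoratian of independent polynomials has few zeros.  Proof: column operations turn
`q_i (β + B j)` into the differences `Δ^j q_i (β)`, `Δ q = q (X + B) - q`; `X^j Δ^j q` is an operator
as in `lead_det` with `h0 = B`; the determinant is a nonzero polynomial in `β` of degree
`≤ e (t - 1)`. -/
theorem casorati (e t B : ℕ) (hB : 1 ≤ B) (q : Fin e → ℂ[X]) (hq : LinearIndependent ℂ q)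
    (hd : ∀ i, (q i).natDegree < t) :
    ∃ Z : Finset ℂ, Z.card ≤ e * (t - 1) ∧ ∀ β : ℂ, β ∉ Z →
      (Matrix.of fun i j : Fin e => (q i).eval (β + (B : ℂ) * ((j : ℕ) : ℂ))).det ≠ 0 := by
  sorry

end Pool.ZC
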