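import Pool.Agent.Helper1.ZC.Defs
import Pool.Agent.Helper44.ZB.CoreP
import Mathlib

/-! Project ZC, piece HT: heights. -/

set_option autoImplicit false

namespace Pool.ZC

open Finset Pool.RA Pool.ZB

variable {ι : Type} [Fintype ι]

/-- A common denominator of the `R_v`.  Proof: `n i = max_v (-(pt v)_i)^+`, attained at some `v`
(or `0`), so `n i ≤ cm |x_i - α k_i| + d |k_i|` and `∑ n i log (r i) ≤ cm w + 2 d L`; the integer is
`∏ r_i ^ (n i + (pt v)_i)`, and `|lam (pt v)| ≤ (b - 1) gn v ≤ (b - 1) (cm w + 2 d L)`. -/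
theorem heights {r : ι → ℕ} {k x : ι → ℤ} {α w L b : ℝ} (H : Rel r k x α w L b)
    (V : Finset (ℤ × ℤ)) (cm d : ℝ) (hcm : 0 ≤ cm) (hd : 0 ≤ d)
    (hV1 : ∀ v ∈ V, |(v.1 : ℝ)| ≤ cm) (hV2 : ∀ v ∈ V, |(v.1 : ℝ) * α - (v.2 : ℝ)| ≤ d) :
    ∃ n : ι → ℕ, ∀ v ∈ V, ∃ M : ℕ,
      M * De r (pt x k v) = (∏ i, r i ^ n i) * Nu r (pt x k v) ∧
      (M : ℝ) ≤ Real.exp (b * (cm * w + 2 * d * L)) := by
  classical
  set n : ι → ℕ := fun i => V.sup (fun v => (-(pt x k v i)).toNat) with hndef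
  have hlog : ∀ i, 0 ≤ Real.log (r i) := fun i => Real.log_natCast_nonneg _
  have hr1 : ∀ i, 1 ≤ r i := fun i => (H.prime i).one_le
  have hw : 0 ≤ w := (nmR_nonneg r _).trans H.nmx
  have hL : 0 ≤ 2 * L := (nm_nonneg r _).trans H.nmk
  have hb1 := H.hb1
  have hn : ∀ i, (n i : ℝ) ≤ cm * |(x i : ℝ) - α * (k i : ℝ)| + d * |(k i : ℝ)| := by
    intro i
    have hpos : 0 ≤ cm * |(x i : ℝ) - α * (k i : ℝ)| + d * |(k i : ℝ)| := by positivity
    have h1 : n i ≤ ⌊cm * |(x i : ℝ) - α * (k i : ℝ)| + d * |(k i : ℝ)|⌋₊ := by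
      refine Finset.sup_le fun v hv => Nat.le_floor ?_
      have h2 : (((-(pt x k v i)).toNat : ℤ) : ℝ) = max (-(pt x k v i : ℝ)) 0 := by
        rw [Int.toNat_eq_max]
        push_cast
        rfl
      have h3 : (((-(pt x k v i)).toNat : ℕ) : ℝ) = max (-(pt x k v i : ℝ)) 0 := by
        rw [← h2]
        norm_cast
      rw [h3]
      refine max_le ?_ hpos
      have h4 : -(pt x k v i : ℝ) = -((v.1 : ℝ) * ((x i : ℝ) - α * (k i : ℝ)))
          - ((v.1 : ℝ) * α - (v.2 : ℝ)) * (k i : ℝ) := by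
        have h5 : pt x k v i = v.1 * x i - v.2 * k i := by
          simp [pt]
        rw [h5]
        push_cast
        ring
      rw [h4]
      have h6 : -((v.1 : ℝ) * ((x i : ℝ) - α * (k i : ℝ))) ≤ cm * |(x i : ℝ) - α * (k i : ℝ)| := by
        refine (neg_le_abs _).trans ?_
        rw [abs_mul]
        exact mul_le_mul_of_nonneg_right (hV1 v hv) (abs_nonneg _)
      have h7 : -(((v.1 : ℝ) * α - (v.2 : ℝ)) * (k i : ℝ)) ≤ d * |(k i : ℝ)| := by
        refine (neg_le_abs _).trans ?_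
        rw [abs_mul]
        exact mul_le_mul_of_nonneg_right (hV2 v hv) (abs_nonneg _)
      linarith
    exact (Nat.cast_le.mpr h1).trans (Nat.floor_le hpos)
  have hnsum : ∑ i, (n i : ℝ) * Real.log (r i) ≤ cm * w + d * (2 * L) := by
    calc ∑ i, (n i : ℝ) * Real.log (r i)
        ≤ ∑ i, (cm * (|(x i : ℝ) - α * (k i : ℝ)| * Real.log (r i))
          + d * (|(k i : ℝ)| * Real.log (r i))) := by
          apply sum_le_sum
          intro i _
          have := mul_le_mul_of_nonneg_right (hn i) (hlog i)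
          linarith
      _ = cm * nmR r (fun i => (x i : ℝ) - α * (k i : ℝ)) + d * nm r k := by
          rw [sum_add_distrib, ← mul_sum, ← mul_sum]
          rfl
      _ ≤ cm * w + d * (2 * L) := add_le_add (mul_le_mul_of_nonneg_left H.nmx hcm)
          (mul_le_mul_of_nonneg_left H.nmk hd)
  refine ⟨n, fun v hv => ⟨∏ i, r i ^ ((n i : ℤ) + pt x k v i).toNat, ?_, ?_⟩⟩
  · unfold De Nu
    rw [← prod_mul_distrib, ← prod_mul_distrib]
    apply prod_congr rfl
    intro i _
    rw [← pow_add, ← pow_add]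
    congr 1
    have h1 : (-(pt x k v i)).toNat ≤ n i :=
      Finset.le_sup (f := fun v => (-(pt x k v i)).toNat) hv
    omega
  · have hnonneg : ∀ i, 0 ≤ (n i : ℤ) + pt x k v i := by
      intro i
      have h1 : (-(pt x k v i)).toNat ≤ n i :=
        Finset.le_sup (f := fun v => (-(pt x k v i)).toNat) hv
      omega
    have h1 : ((∏ i, r i ^ ((n i : ℤ) + pt x k v i).toNat : ℕ) : ℝ)
        = Real.exp (∑ i, (((n i : ℤ) + pt x k v i).toNat : ℝ) * Real.log (r i)) := by
      rw [Real.exp_sum]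
      push_cast
      apply prod_congr rfl
      intro i _
      rw [Real.exp_nat_mul, Real.exp_log]
      exact_mod_cast hr1 i
    rw [h1]
    apply Real.exp_le_exp.mpr
    have h2 : ∑ i, (((n i : ℤ) + pt x k v i).toNat : ℝ) * Real.log (r i)
        = ∑ i, (n i : ℝ) * Real.log (r i) + lam r (pt x k v) := by
      unfold lam lamR
      rw [← sum_add_distrib]
      apply sum_congr rfl
      intro i _
      have h3 : (((n i : ℤ) + pt x k v i).toNat : ℝ) = (n i : ℝ) + (pt x k v i : ℝ) := by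
        have h4 : ((((n i : ℤ) + pt x k v i).toNat : ℤ) : ℝ) = (((n i : ℤ) + pt x k v i : ℤ) : ℝ) := by
          rw [Int.toNat_of_nonneg (hnonneg i)]
        push_cast at h4
        exact_mod_cast h4
      rw [h3, add_mul]
    rw [h2]
    have h3 : lam r (pt x k v) ≤ (b - 1) * gn w L α v := (le_abs_self _).trans (lam_pt H v)
    have h4 : gn w L α v ≤ cm * w + 2 * d * L := by
      unfold gn
      have h5 := mul_le_mul_of_nonneg_right (hV1 v hv) hw
      have h6 := mul_le_mul_of_nonneg_left (hV2 v hv) hL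
      linarith
    have h5 : (b - 1) * gn w L α v ≤ (b - 1) * (cm * w + 2 * d * L) :=
      mul_le_mul_of_nonneg_left h4 (by linarith)
    calc ∑ i, (n i : ℝ) * Real.log (r i) + lam r (pt x k v)
        ≤ (cm * w + d * (2 * L)) + (b - 1) * (cm * w + 2 * d * L) := by linarith
      _ = b * (cm * w + 2 * d * L) := by ring

end Pool.ZC
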