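import Pool.Agent.Helper1.ZC.Defs
import Mathlib

/-! Project ZC, piece NUM: the final inequality. -/

set_option autoImplicit false

namespace Pool.ZC

open Finset

theorem num_pref (K : ℝ) (s m C1 : ℕ) (hm : 1 ≤ m) (hC : 4 * s * C1 ≤ m) (hs : 1 ≤ s) :
    ((CC s m C1 : ℕ) : ℝ) * s * Real.exp (K * m) * 2 ^ (CC s m C1)
      ≤ Real.exp (((2 * s + 2) * s + K + (2 * s + 2)) * m) := by
  have hC1 : C1 ≤ m := by
    have h1 : 1 * C1 ≤ 4 * s * C1 := Nat.mul_le_mul_right _ (by omega)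
    omega
  have hCC : CC s m C1 ≤ m * (2 * s + 2) := by
    unfold CC
    nlinarith
  have hCCR : ((CC s m C1 : ℕ) : ℝ) ≤ m * (2 * s + 2) := by exact_mod_cast hCC
  have hsR : (0 : ℝ) ≤ s := Nat.cast_nonneg s
  have h1 : ((CC s m C1 : ℕ) : ℝ) * s ≤ Real.exp (m * (2 * s + 2) * s) := by
    have h2 := Real.add_one_le_exp ((m : ℝ) * (2 * s + 2) * s)
    have h3 : ((CC s m C1 : ℕ) : ℝ) * s ≤ m * (2 * s + 2) * s :=
      mul_le_mul_of_nonneg_right hCCR hsR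
    linarith
  have h2 : (2 : ℝ) ^ (CC s m C1) ≤ Real.exp (m * (2 * s + 2)) := by
    have h3 : (2 : ℝ) ≤ Real.exp 1 := by
      have := Real.add_one_le_exp (1 : ℝ)
      linarith
    calc (2 : ℝ) ^ (CC s m C1) ≤ (Real.exp 1) ^ (CC s m C1) :=
          pow_le_pow_left₀ (by norm_num) h3 _
      _ = Real.exp (((CC s m C1 : ℕ) : ℝ) * 1) := by rw [← Real.exp_nat_mul]
      _ ≤ Real.exp (m * (2 * s + 2)) := by
          apply Real.exp_le_exp.mpr
          linarith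
  calc ((CC s m C1 : ℕ) : ℝ) * s * Real.exp (K * m) * 2 ^ (CC s m C1)
      ≤ Real.exp (m * (2 * s + 2) * s) * Real.exp (K * m) * Real.exp (m * (2 * s + 2)) := by
        apply mul_le_mul _ h2 (by positivity) (by positivity)
        exact mul_le_mul_of_nonneg_right h1 (Real.exp_pos _).le
    _ = Real.exp (((2 * s + 2) * s + K + (2 * s + 2)) * m) := by
        rw [← Real.exp_add, ← Real.exp_add]
        ring_nf

/-- Note 2769, step (4). -/
theorem num_core (δ K : ℝ) (hδ : 0 < δ) (hδ1 : δ ≤ 1 / 2) (hK : 1 ≤ K) (s : ℕ)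
    (hs : s = ⌈8 / δ⌉₊) : ∃ W : ℝ, 1 ≤ W ∧ ∀ (m C1 : ℕ) (lp w L b BB : ℝ), W ≤ (m : ℝ) → W ≤ lp →
      W ≤ BB → 0 ≤ w → 0 ≤ L → 1 ≤ b → b ≤ 1 + δ / 8 → b * w ≤ (1 - δ) * lp →
      L ≤ (1 + δ / 8) * (m * lp) → 4 * s * C1 ≤ m →
      ((CC s m C1 : ℕ) : ℝ) * s * Real.exp (K * m) * 2 ^ (CC s m C1) *
        Real.exp (b * ((m * (s + 1 / 2) + m / (8 * s) + 1) * w +
          2 * (s / 2 + 32 * s ^ 3 / BB) * L)) < Real.exp ((2 * s - 1) * m * lp) := by
  have hS : 8 / δ ≤ (s : ℝ) := by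
    rw [hs]
    exact Nat.le_ceil _
  have hδS : 8 ≤ δ * s := by
    rw [div_le_iff₀ hδ] at hS
    linarith
  have hS16 : (16 : ℝ) ≤ s := by
    have h1 : (16 : ℝ) ≤ 8 / δ := by
      rw [le_div_iff₀ hδ]
      linarith
    linarith
  have hs1 : 1 ≤ s := by
    have h1 : (1 : ℝ) ≤ s := by linarith
    exact_mod_cast h1
  refine ⟨max 1 (max ((2 * s + 2) * s + K + (2 * s + 2)) (128 * (s : ℝ) ^ 3)),
    le_max_left _ _, ?_⟩
  intro m C1 lp w L b BB hm hlp hBB hw hL hb hb2 hbw hLl hC1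
  have hm1 : (1 : ℝ) ≤ m := le_trans (le_max_left _ _) hm
  have hm1' : 1 ≤ m := by exact_mod_cast hm1
  have hlp1 : (1 : ℝ) ≤ lp := le_trans (le_max_left _ _) hlp
  have hlpK : (2 * s + 2) * s + K + (2 * s + 2) ≤ lp :=
    le_trans ((le_max_left _ _).trans (le_max_right _ _)) hlp
  have hBB2 : 128 * (s : ℝ) ^ 3 ≤ BB :=
    le_trans ((le_max_right _ _).trans (le_max_right _ _)) hBB
  have hs3 : (0 : ℝ) < 128 * (s : ℝ) ^ 3 := by positivity
  have hBB0 : 0 < BB := by linarith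
  have hS0 : (0 : ℝ) < s := by linarith
  have hX : 0 < (m : ℝ) * lp := by positivity
  -- the prefactor
  have h1 := num_pref K s m C1 hm1' hC1 hs1
  have h2 : ((2 * s + 2) * s + K + (2 * s + 2)) * m ≤ m * lp := by
    rw [mul_comm (m : ℝ) lp]
    exact mul_le_mul_of_nonneg_right hlpK (by positivity)
  -- first term
  have h3 : (m : ℝ) * (s + 1 / 2) + m / (8 * s) + 1 ≤ m * (s + 151 / 100) := by
    have h4 : (m : ℝ) / (8 * s) ≤ m * (1 / 128) := by
      rw [div_le_iff₀ (by positivity)]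
      nlinarith
    nlinarith
  have h4 : (b * w) * (m * (s + 1 / 2) + m / (8 * s) + 1)
      ≤ (1 - δ) * (m * lp) * (s + 151 / 100) := by
    calc (b * w) * (m * (s + 1 / 2) + m / (8 * s) + 1)
        ≤ ((1 - δ) * lp) * (m * (s + 151 / 100)) :=
          mul_le_mul hbw h3 (by positivity) (mul_nonneg (by linarith) (by linarith))
      _ = _ := by ring
  -- second term
  have h5 : 2 * ((s : ℝ) / 2 + 32 * s ^ 3 / BB) ≤ s + 1 / 2 := by
    have h6 : 32 * (s : ℝ) ^ 3 / BB ≤ 1 / 4 := by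
      rw [div_le_iff₀ hBB0]
      linarith
    linarith
  have h6 : b * L ≤ (1 + δ / 8) * ((1 + δ / 8) * (m * lp)) :=
    mul_le_mul hb2 hLl hL (by linarith)
  have h7 : (b * L) * (2 * ((s : ℝ) / 2 + 32 * s ^ 3 / BB))
      ≤ (1 + δ / 8) * ((1 + δ / 8) * (m * lp)) * (s + 1 / 2) :=
    mul_le_mul h6 h5 (by positivity) (by positivity)
  -- the numbers
  have h8 : (1 + δ / 8) * (1 + δ / 8) ≤ 1 + 33 / 128 * δ := by nlinarith
  have h9 : (1 - δ) * ((s : ℝ) + 151 / 100) + (1 + δ / 8) * (1 + δ / 8) * (s + 1 / 2)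
      ≤ 2 * s - 3 := by
    have h10 : (1 + δ / 8) * (1 + δ / 8) * ((s : ℝ) + 1 / 2)
        ≤ (1 + 33 / 128 * δ) * (s + 1 / 2) :=
      mul_le_mul_of_nonneg_right h8 (by positivity)
    nlinarith
  have h11 : ((2 * s + 2) * s + K + (2 * s + 2)) * m
      + b * ((m * (s + 1 / 2) + m / (8 * s) + 1) * w + 2 * (s / 2 + 32 * s ^ 3 / BB) * L)
      < (2 * s - 1) * m * lp := by
    have h12 : b * ((m * (s + 1 / 2) + m / (8 * s) + 1) * w
        + 2 * (s / 2 + 32 * s ^ 3 / BB) * L)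
        = (b * w) * (m * (s + 1 / 2) + m / (8 * s) + 1)
          + (b * L) * (2 * ((s : ℝ) / 2 + 32 * s ^ 3 / BB)) := by ring
    rw [h12]
    have h13 : ((1 - δ) * ((s : ℝ) + 151 / 100)
        + (1 + δ / 8) * (1 + δ / 8) * (s + 1 / 2)) * (m * lp) ≤ (2 * s - 3) * (m * lp) :=
      mul_le_mul_of_nonneg_right h9 hX.le
    nlinarith
  calc ((CC s m C1 : ℕ) : ℝ) * s * Real.exp (K * m) * 2 ^ (CC s m C1) *
        Real.exp (b * ((m * (s + 1 / 2) + m / (8 * s) + 1) * w +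
          2 * (s / 2 + 32 * s ^ 3 / BB) * L))
      ≤ Real.exp (((2 * s + 2) * s + K + (2 * s + 2)) * m) *
        Real.exp (b * ((m * (s + 1 / 2) + m / (8 * s) + 1) * w +
          2 * (s / 2 + 32 * s ^ 3 / BB) * L)) :=
        mul_le_mul_of_nonneg_right h1 (Real.exp_pos _).le
    _ = Real.exp (((2 * s + 2) * s + K + (2 * s + 2)) * m
        + b * ((m * (s + 1 / 2) + m / (8 * s) + 1) * w
          + 2 * (s / 2 + 32 * s ^ 3 / BB) * L)) := by rw [← Real.exp_add]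
    _ < Real.exp ((2 * s - 1) * m * lp) := Real.exp_lt_exp.mpr h11

end Pool.ZC
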