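import Pool.Agent.Helper1.ZC.Defs
import Pool.Agent.Helper71.ZC.PX
import Mathlib

/-! Project ZC, piece PX: the expansion at the prime. -/

set_option autoImplicit false

namespace Pool.ZC

open Finset

/-- Expansion: `(1 + P ρ1)^e = ∑ (P ρ1)^ν (e.choose ν)`, `(1 + P^m κ1)^f = ∑ (P^m κ1)^l (f.choose l)`,
`(e.choose a) (e.choose ν)` is an integral combination of `e.choose i`, `i ≤ a + ν` (Helper42.ZB.E1
has this), so only `a + ν + m l ≥ 2 s m` survives. -/
theorem px {R : Type} [CommRing R] (m s D : ℕ) (P ρ1 κ1 : R) (f : ℕ → ℕ → ℕ) (p : ℕ → ℕ → ℤ)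
    (H0 : Orth m s D f p) (a : ℕ) :
    P ^ (2 * s * m - a) ∣ ∑ e ∈ range D, ∑ j ∈ range s,
      (p e j : R) * (1 + P * ρ1) ^ e * (1 + P ^ m * κ1) ^ (f e j) * ((e.choose a : ℕ) : R) := by
  have h := Pool.ZC71.px (R := R) (range D ×ˢ range s) (fun x => p x.1 x.2) (fun x => x.1)
    (fun x => f x.1 x.2) m (2 * s * m) (fun i1 i2 hi => by
      rw [sum_product]
      exact H0 i1 i2 hi) P ρ1 κ1 a
  rw [sum_product] at h
  exact h

end Pool.ZC
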