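import Pool.Agent.Helper1.ZC.Defs
import Mathlib

/-! Project ZC, piece RW: the rows. -/

set_option autoImplicit false

namespace Pool.ZC

open Finset

theorem rw_mt_le (A B : ℕ) (C0 β0 : ℤ) (hB : 1 ≤ B) (e : ℕ) :
    (B : ℤ) * mt A B C0 β0 e ≤ (A : ℤ) * ((e : ℤ) - C0) + β0 := by
  unfold mt
  have hB' : (0 : ℤ) < B := by exact_mod_cast hB
  exact Int.mul_ediv_self_le hB'.ne'

theorem rw_lt_mt (A B : ℕ) (C0 β0 : ℤ) (hB : 1 ≤ B) (e : ℕ) :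
    (A : ℤ) * ((e : ℤ) - C0) + β0 + 1 ≤ (B : ℤ) * mt A B C0 β0 e + B := by
  unfold mt
  have hB' : (0 : ℤ) < B := by exact_mod_cast hB
  have h := Int.lt_mul_ediv_self_add (x := (A : ℤ) * ((e : ℤ) - C0) + β0) hB'
  omega

theorem rw_mt_mono (A B : ℕ) (C0 β0 : ℤ) (hB : 1 ≤ B) (e e' : ℕ) (h : e ≤ e') :
    mt A B C0 β0 e ≤ mt A B C0 β0 e' := by
  unfold mt
  have hB' : (0 : ℤ) < B := by exact_mod_cast hB
  apply Int.ediv_le_ediv hB'
  have h1 : (e : ℤ) ≤ e' := by exact_mod_cast h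
  have h2 : (A : ℤ) * ((e : ℤ) - C0) ≤ (A : ℤ) * ((e' : ℤ) - C0) :=
    mul_le_mul_of_nonneg_left (by linarith) (by positivity)
  linarith

/-- Bounds for the rows `(e - C0, mt e - j)`, `C0 = C / 2`, `β0 = s B / 2`. -/
theorem rows (s m C1 A B : ℕ) (α : ℝ) (hs : 1 ≤ s) (hB : 1 ≤ B) (hB1 : 128 * s ^ 2 ≤ B)
    (hB2 : 8 * s ^ 2 * B ≤ m) (hC1 : 4 * s * C1 ≤ m) (hα0 : 0 ≤ α) (hα1 : α ≤ 1 / 8)
    (hα : |α - (A : ℝ) / B| ≤ 16 * s ^ 2 / (m * B)) (C : ℕ) (hC : C = CC s m C1) (C0 β0 : ℤ)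
    (hC0 : C0 = ((C / 2 : ℕ) : ℤ)) (hβ0 : β0 = ((s * B / 2 : ℕ) : ℤ)) (e j : ℕ) (he : e < C)
    (hj : j < s) :
    |(((e : ℤ) - C0 : ℤ) : ℝ)| ≤ m * (s + 1 / 2) + m / (8 * s) + 1 ∧
    |(((e : ℤ) - C0 : ℤ) : ℝ) * α - ((mt A B C0 β0 e - (j : ℤ) : ℤ) : ℝ)| ≤
      s / 2 + 32 * s ^ 3 / B ∧
    ff A B C C0 β0 e j ≤ C ∧
    ((ff A B C C0 β0 e j : ℕ) : ℤ) = mt A B C0 β0 (C - 1) - mt A B C0 β0 e + (j : ℤ) := by
  have hsR : (1 : ℝ) ≤ s := by exact_mod_cast hs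
  have hBR : (1 : ℝ) ≤ B := by exact_mod_cast hB
  have hB1R : (128 : ℝ) * s ^ 2 ≤ B := by exact_mod_cast hB1
  have hB2R : (8 : ℝ) * s ^ 2 * B ≤ m := by exact_mod_cast hB2
  have hC1R : (4 : ℝ) * s * C1 ≤ m := by exact_mod_cast hC1
  have hs2 : (1 : ℝ) ≤ (s : ℝ) ^ 2 := one_le_pow₀ hsR
  have hmR : (1024 : ℝ) * s ^ 2 ≤ m := by nlinarith
  have hm0 : (0 : ℝ) < m := by nlinarith
  have hs0 : (0 : ℝ) < s := by linarith
  have hB0 : (0 : ℝ) < B := by linarith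
  -- the bound for `e - C0`
  have hCR : (C : ℝ) = m * (2 * s + 1) + C1 := by
    rw [hC]; unfold CC; push_cast; ring
  have hC1' : (C1 : ℝ) ≤ m / (4 * s) := by
    rw [le_div_iff₀ (by positivity)]
    linarith
  have hCh : (C : ℝ) / 2 ≤ m * (s + 1 / 2) + m / (8 * s) := by
    rw [hCR]
    have : (m : ℝ) / (8 * s) = (m / (4 * s)) / 2 := by
      field_simp
      norm_num
    rw [this]
    linarith
  have hc1 : 2 * ((e : ℤ) - C0) ≤ C := by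
    rw [hC0]; omega
  have hc2 : -(C : ℤ) ≤ 2 * ((e : ℤ) - C0) := by
    rw [hC0]; omega
  have hc1R : (2 : ℝ) * (((e : ℤ) - C0 : ℤ) : ℝ) ≤ C := by exact_mod_cast hc1
  have hc2R : -(C : ℝ) ≤ 2 * (((e : ℤ) - C0 : ℤ) : ℝ) := by exact_mod_cast hc2
  have hcabs : |(((e : ℤ) - C0 : ℤ) : ℝ)| ≤ C / 2 := by
    rw [abs_le]
    constructor <;> linarith
  set c : ℝ := (((e : ℤ) - C0 : ℤ) : ℝ) with hcdef
  have hpart1 : |c| ≤ m * (s + 1 / 2) + m / (8 * s) + 1 := by linarith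
  -- the second bound
  have hmt1 := rw_mt_le A B C0 β0 hB e
  have hmt2 := rw_lt_mt A B C0 β0 hB e
  have hmt1R : (B : ℝ) * (mt A B C0 β0 e : ℝ) ≤ (A : ℝ) * c + (β0 : ℝ) := by
    rw [hcdef]; exact_mod_cast hmt1
  have hmt2R : (A : ℝ) * c + (β0 : ℝ) + 1 ≤ (B : ℝ) * (mt A B C0 β0 e : ℝ) + B := by
    rw [hcdef]; exact_mod_cast hmt2
  have hb1 : 2 * β0 ≤ (s : ℤ) * B := by
    rw [hβ0]
    have : ((s : ℤ) * B) = ((s * B : ℕ) : ℤ) := by push_cast; rfl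
    rw [this]; omega
  have hb2 : (s : ℤ) * B ≤ 2 * β0 + 1 := by
    rw [hβ0]
    have : ((s : ℤ) * B) = ((s * B : ℕ) : ℤ) := by push_cast; rfl
    rw [this]; omega
  have hb1R : (2 : ℝ) * (β0 : ℝ) ≤ s * B := by exact_mod_cast hb1
  have hb2R : (s : ℝ) * B ≤ 2 * (β0 : ℝ) + 1 := by exact_mod_cast hb2
  have hjR : (j : ℝ) + 1 ≤ s := by exact_mod_cast hj
  have hj0 : (0 : ℝ) ≤ j := by positivity
  have hpart2 : |c * α - ((mt A B C0 β0 e - (j : ℤ) : ℤ) : ℝ)| ≤ s / 2 + 32 * s ^ 3 / B := by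
    have hsplit : c * α - ((mt A B C0 β0 e - (j : ℤ) : ℤ) : ℝ) =
        c * (α - (A : ℝ) / B) + (((A : ℝ) * c - B * (mt A B C0 β0 e : ℝ)) / B + j) := by
      push_cast
      field_simp
      ring
    rw [hsplit]
    refine (abs_add_le _ _).trans ?_
    have h1 : |c * (α - (A : ℝ) / B)| ≤ 32 * s ^ 3 / B := by
      rw [abs_mul]
      have hC2 : |c| ≤ m * (2 * s) := by
        refine hcabs.trans (hCh.trans ?_)
        have h8 : (m : ℝ) / (8 * s) ≤ m / 8 := by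
          apply div_le_div_of_nonneg_left hm0.le (by norm_num)
          linarith
        nlinarith
      calc |c| * |α - (A : ℝ) / B| ≤ (m * (2 * s)) * (16 * s ^ 2 / (m * B)) :=
            mul_le_mul hC2 hα (abs_nonneg _) (by positivity)
        _ = 32 * s ^ 3 / B := by
            field_simp
            norm_num
    have h2 : |((A : ℝ) * c - B * (mt A B C0 β0 e : ℝ)) / B + j| ≤ s / 2 := by
      have hlo : -((s : ℝ) / 2) ≤ ((A : ℝ) * c - B * (mt A B C0 β0 e : ℝ)) / B := by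
        rw [le_div_iff₀ hB0]
        linarith
      have hhi : ((A : ℝ) * c - B * (mt A B C0 β0 e : ℝ)) / B ≤ 1 - s / 2 := by
        rw [div_le_iff₀ hB0]
        have : (1 - (s : ℝ) / 2) * B = B - s * B / 2 := by ring
        rw [this]
        linarith
      rw [abs_le]
      constructor
      · linarith
      · linarith
    linarith
  -- the exponents
  have hC1pos : 1 ≤ C := by omega
  have hmono := rw_mt_mono A B C0 β0 hB e (C - 1) (by omega)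
  have hnonneg : 0 ≤ mt A B C0 β0 (C - 1) - mt A B C0 β0 e + (j : ℤ) := by omega
  have hpart4 : ((ff A B C C0 β0 e j : ℕ) : ℤ) =
      mt A B C0 β0 (C - 1) - mt A B C0 β0 e + (j : ℤ) := by
    unfold ff
    exact Int.toNat_of_nonneg hnonneg
  refine ⟨hpart1, hpart2, ?_, hpart4⟩
  have hAB : (A : ℝ) / B ≤ 1 / 4 := by
    have h1 : (A : ℝ) / B ≤ α + 16 * s ^ 2 / (m * B) := by
      have := (abs_le.1 hα).1
      linarith
    have h2 : 16 * (s : ℝ) ^ 2 / (m * B) ≤ 1 / 8 := by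
      rw [div_le_iff₀ (by positivity)]
      nlinarith
    linarith
  have hA4 : (4 : ℝ) * A ≤ B := by
    rw [div_le_iff₀ hB0] at hAB
    linarith
  have hA4Z : (4 : ℤ) * A ≤ B := by exact_mod_cast hA4
  have hmC := rw_mt_le A B C0 β0 hB (C - 1)
  have hBZ : (0 : ℤ) < B := by exact_mod_cast hB
  -- `B (mt (C-1) - mt e) ≤ A (C - 1 - e) + B - 1`
  have hdiff : (B : ℤ) * (mt A B C0 β0 (C - 1) - mt A B C0 β0 e) ≤
      (A : ℤ) * (((C - 1 : ℕ) : ℤ) - (e : ℤ)) + B := by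
    nlinarith
  have hCe : (0 : ℤ) ≤ ((C - 1 : ℕ) : ℤ) - (e : ℤ) := by omega
  have hdiff2 : (B : ℤ) * (4 * (mt A B C0 β0 (C - 1) - mt A B C0 β0 e)) ≤
      (B : ℤ) * ((((C - 1 : ℕ) : ℤ) - (e : ℤ)) + 4) := by
    have h1 : (4 : ℤ) * A * (((C - 1 : ℕ) : ℤ) - (e : ℤ)) ≤
        (B : ℤ) * (((C - 1 : ℕ) : ℤ) - (e : ℤ)) :=
      mul_le_mul_of_nonneg_right hA4Z hCe
    nlinarith
  have hdiff3 := le_of_mul_le_mul_left hdiff2 hBZ
  have hCs : (s : ℤ) * 2 + 4 ≤ C := by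
    have : (s : ℝ) * 2 + 4 ≤ C := by
      rw [hCR]
      have h0 : (0 : ℝ) ≤ C1 := by positivity
      nlinarith
    exact_mod_cast this
  have hfin : ((ff A B C C0 β0 e j : ℕ) : ℤ) ≤ (C : ℤ) := by
    rw [hpart4]
    omega
  exact_mod_cast hfin

end Pool.ZC
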