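import Pool.Agent.Helper1.ZC.Defs
import Pool.Agent.Helper71.ZC.SI
import Mathlib

/-! Project ZC, piece SI: the lemma of Siegel. -/

set_option autoImplicit false

namespace Pool.ZC

open Finset

/-- The vector `p`.  Proof: `Int.Matrix.exists_ne_zero_int_vec_norm_le`; `C s` unknowns,
`m s (2 s + 1) = C s - s C1` equations, coefficients at most `4 ^ C`; the exponent is
`m (2 s + 1) / C1 ≤ 8 s (2 s + 1)`. -/
theorem siegel (s : ℕ) (hs : 1 ≤ s) : ∃ K : ℝ, 1 ≤ K ∧ ∀ (m C1 : ℕ) (f : ℕ → ℕ → ℕ), 1 ≤ m →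
    m ≤ 8 * s * C1 → C1 ≤ m → (∀ e < CC s m C1, ∀ j < s, f e j ≤ CC s m C1) →
    ∃ p : ℕ → ℕ → ℤ, (∃ e < CC s m C1, ∃ j < s, p e j ≠ 0) ∧
      (∀ e j, |(p e j : ℝ)| ≤ Real.exp (K * m)) ∧ Orth m s (CC s m C1) f p := by
  refine ⟨((8 * s * (2 * s + 1) * (2 * s + 2) * (s + 2) : ℕ) : ℝ), ?_, ?_⟩
  · have h : 1 ≤ 8 * s * (2 * s + 1) * (2 * s + 2) * (s + 2) :=
      Nat.one_le_iff_ne_zero.2 (by positivity)
    exact_mod_cast h
  intro m C1 f hm h8 h1 hf
  have hc1 : 0 < C1 := by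
    rcases Nat.eq_zero_or_pos C1 with h | h
    · rw [h] at h8
      omega
    · exact h
  obtain ⟨C, hC⟩ : ∃ C, C = CC s m C1 := ⟨_, rfl⟩
  have hC' : C = m * (2 * s + 1) + C1 := hC
  rw [← hC] at hf ⊢
  obtain ⟨q, hq0, hq1, hq2⟩ := Pool.ZC71.si (β := Fin C × Fin s) s m C1 C hs hm hc1 hC'
    (by simp) (fun x => (x.1 : ℕ)) (fun x => f x.1 x.2) (fun x => x.1.2.le)
    (fun x => hf _ x.1.2 _ x.2.2)
  refine ⟨fun e j => if h : e < C ∧ j < s then q (⟨e, h.1⟩, ⟨j, h.2⟩) else 0, ?_, ?_, ?_⟩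
  · obtain ⟨x, hx⟩ : ∃ x, q x ≠ 0 := by
      by_contra hcon
      push Not at hcon
      exact hq0 (funext hcon)
    refine ⟨x.1, x.1.2, x.2, x.2.2, ?_⟩
    have hej : (x.1 : ℕ) < C ∧ (x.2 : ℕ) < s := ⟨x.1.2, x.2.2⟩
    simp only [dif_pos hej]
    exact hx
  · intro e j
    have hpos : (0 : ℝ) ≤ Real.exp (((8 * s * (2 * s + 1) * (2 * s + 2) * (s + 2) : ℕ) : ℝ) * m) :=
      (Real.exp_pos _).le
    by_cases h : e < C ∧ j < s
    · simp only [dif_pos h]
      refine (hq2 _).trans ?_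
      have hCpos : 0 < C := by
        rw [hC']
        positivity
      have hCs : (1 : ℝ) ≤ ((C * s : ℕ) : ℝ) := by
        exact_mod_cast Nat.one_le_iff_ne_zero.2 (by positivity)
      have hbase : (0 : ℝ) < ((C * s : ℕ) : ℝ) * 4 ^ C := by positivity
      have hlog : Real.log (((C * s : ℕ) : ℝ) * 4 ^ C) ≤ (C : ℝ) * (s + 2) := by
        rw [Real.log_mul (by linarith) (by positivity), Real.log_pow]
        have h2 : Real.log ((C * s : ℕ) : ℝ) ≤ ((C * s : ℕ) : ℝ) :=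
          (Real.log_le_sub_one_of_pos (by linarith)).trans (by linarith)
        have h3 : Real.log 4 ≤ 2 := by
          have h4 : Real.log 4 = 2 * Real.log 2 := by
            rw [show (4 : ℝ) = 2 ^ 2 by norm_num, Real.log_pow]
            norm_num
          have h5 := Real.log_two_lt_d9
          linarith
        have h6 : (0 : ℝ) ≤ C := Nat.cast_nonneg _
        push_cast at h2 ⊢
        nlinarith
      have hE : ((m * (2 * s + 1) : ℕ) : ℝ) / (C1 : ℝ) ≤ ((8 * s * (2 * s + 1) : ℕ) : ℝ) := by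
        have hc1' : (0 : ℝ) < C1 := by exact_mod_cast hc1
        rw [div_le_iff₀ hc1']
        have h7 : m * (2 * s + 1) ≤ 8 * s * (2 * s + 1) * C1 := by
          calc m * (2 * s + 1) ≤ 8 * s * C1 * (2 * s + 1) := Nat.mul_le_mul_right _ h8
            _ = 8 * s * (2 * s + 1) * C1 := by ring
        exact_mod_cast h7
      have hE0 : (0 : ℝ) ≤ ((m * (2 * s + 1) : ℕ) : ℝ) / (C1 : ℝ) := by positivity
      have hCm : (C : ℝ) ≤ (2 * s + 2) * m := by
        have h8' : C ≤ (2 * s + 2) * m := by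
          rw [hC']
          nlinarith
        exact_mod_cast h8'
      rw [Real.rpow_def_of_pos hbase]
      apply Real.exp_le_exp.2
      calc Real.log (((C * s : ℕ) : ℝ) * 4 ^ C) * (((m * (2 * s + 1) : ℕ) : ℝ) / (C1 : ℝ))
          ≤ ((C : ℝ) * (s + 2)) * (((m * (2 * s + 1) : ℕ) : ℝ) / (C1 : ℝ)) :=
            mul_le_mul_of_nonneg_right hlog hE0
        _ ≤ ((C : ℝ) * (s + 2)) * ((8 * s * (2 * s + 1) : ℕ) : ℝ) :=
            mul_le_mul_of_nonneg_left hE (by positivity)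
        _ ≤ (((2 * s + 2) * m : ℝ) * (s + 2)) * ((8 * s * (2 * s + 1) : ℕ) : ℝ) := by
            gcongr
        _ = ((8 * s * (2 * s + 1) * (2 * s + 2) * (s + 2) : ℕ) : ℝ) * m := by
            push_cast
            ring
    · simp only [dif_neg h, Int.cast_zero, abs_zero]
      exact hpos
  · intro i1 i2 hi
    refine Eq.trans ?_ (hq1 i1 i2 hi)
    rw [Fintype.sum_prod_type, Finset.sum_range]
    refine Finset.sum_congr rfl fun e _ => ?_
    rw [Finset.sum_range]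
    refine Finset.sum_congr rfl fun j _ => ?_
    have hej : (e : ℕ) < C ∧ (j : ℕ) < s := ⟨e.2, j.2⟩
    simp only [dif_pos hej]

end Pool.ZC
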