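import Pool.Agent.Helper1.ZC.ZLA
import Pool.Agent.Helper1.ZC.PX
import Pool.Agent.Helper1.ZC.SI
import Pool.Agent.Helper1.ZC.HT
import Pool.Agent.Helper1.ZC.RW
import Pool.Agent.Helper1.ZC.NUM

/-! Project ZC, piece CO: the core for a given approximation of `α`. -/

set_option autoImplicit false

namespace Pool.ZC

open Finset Pool.RA Pool.ZB

private theorem co_q (F : Type) [Field F] [CharZero F] {ι : Type} [Fintype ι] (r : ι → ℕ)
    (hr : ∀ i, 1 ≤ r i) (x : ι → ℤ) :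
    (Nu r x : F) / (De r x : F) = ∏ i, (r i : F) ^ (x i) := by
  unfold Nu De
  rw [Nat.cast_prod, Nat.cast_prod, ← Finset.prod_div_distrib]
  refine Finset.prod_congr rfl fun i _ => ?_
  have h0 : (r i : F) ≠ 0 := by
    have := hr i
    exact_mod_cast (show r i ≠ 0 by omega)
  rw [Nat.cast_pow, Nat.cast_pow, ← zpow_natCast, ← zpow_natCast, ← zpow_sub₀ h0]
  congr 1
  have := Int.toNat_sub_toNat_neg (x i)
  omega

private theorem co_pt (F : Type) [Field F] [CharZero F] {ι : Type} [Fintype ι] (r : ι → ℕ)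
    (hr : ∀ i, 1 ≤ r i) (x k : ι → ℤ) (c μ : ℤ) :
    (Nu r (pt x k (c, μ)) : F) / (De r (pt x k (c, μ)) : F) =
      ((Nu r x : F) / (De r x : F)) ^ c * ((Nu r k : F) / (De r k : F)) ^ (-μ) := by
  rw [co_q F r hr, co_q F r hr, co_q F r hr, ← Finset.prod_zpow, ← Finset.prod_zpow,
    ← Finset.prod_mul_distrib]
  refine Finset.prod_congr rfl fun i _ => ?_
  have h0 : (r i : F) ≠ 0 := by
    have := hr i
    exact_mod_cast (show r i ≠ 0 by omega)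
  rw [← zpow_mul, ← zpow_mul, ← zpow_add₀ h0]
  congr 1
  simp only [pt, Pi.sub_apply, Pi.smul_apply, smul_eq_mul]
  ring

private theorem co_q_ne (F : Type) [Field F] [CharZero F] {ι : Type} [Fintype ι] (r : ι → ℕ)
    (hr : ∀ i, 1 ≤ r i) (x : ι → ℤ) : (Nu r x : F) / (De r x : F) ≠ 0 := by
  have h1 := nu_pos r hr x
  have h2 := de_pos r hr x
  refine div_ne_zero ?_ ?_
  · exact_mod_cast h1.ne'
  · exact_mod_cast h2.ne'

private theorem co_sig (F : Type) [Field F] (σ : ℤˣ) (t : ℤ) :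
    ((((σ ^ t : ℤˣ) : ℤ)) : F) = (((σ : ℤˣ) : ℤ) : F) ^ t := by
  have h := congrArg Units.val (map_zpow (Units.map (Int.castRingHom F).toMonoidHom) σ t)
  rw [Units.val_zpow_eq_zpow_val] at h
  exact h

private theorem co_nd {ι : Type} [Fintype ι] (r : ι → ℕ) (hr : ∀ i, (r i).Prime)
    (hinj : Function.Injective r) (x k : ι → ℤ) (A B : ℕ) (σ : ℤˣ)
    (h : ((Nu r x : ℂ) / (De r x : ℂ)) ^ B =
      ((((σ : ℤˣ) : ℤ) : ℂ) * ((Nu r k : ℂ) / (De r k : ℂ))) ^ A) :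
    (B : ℤ) • x = (A : ℤ) • k := by
  have hr1 : ∀ i, 1 ≤ r i := fun i => (hr i).one_le
  have h1 := congrArg (fun z : ℂ => ‖z‖) h
  have hσ : ‖(((σ : ℤˣ) : ℤ) : ℂ)‖ = 1 := by
    rcases Int.units_eq_one_or σ with h2 | h2 <;> rw [h2] <;> simp
  simp only [norm_pow, norm_mul, norm_div, hσ, one_mul, Complex.norm_natCast] at h1
  have h2 := co_pt ℝ r hr1 x k (B : ℤ) (A : ℤ)
  rw [zpow_natCast, zpow_neg, zpow_natCast, h1, mul_inv_cancel₀
    (pow_ne_zero _ (co_q_ne ℝ r hr1 k))] at h2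
  have h3 : (De r (pt x k ((B : ℤ), (A : ℤ))) : ℝ) ≠ 0 := by
    have := de_pos r hr1 (pt x k ((B : ℤ), (A : ℤ)))
    exact_mod_cast this.ne'
  rw [div_eq_one_iff_eq h3] at h2
  have h4 := eq_zero_of_nu_eq_de r hr hinj _ (by exact_mod_cast h2)
  exact sub_eq_zero.1 h4

private theorem co_lift (p q t : ℕ) (hp : 0 < p) (htq : t ≤ q) (u : ZMod (p ^ q))
    (hu : ZMod.castHom (pow_dvd_pow p htq) (ZMod (p ^ t)) u = 1) :
    ∃ c : ZMod (p ^ q), u = 1 + (p : ZMod (p ^ q)) ^ t * c := by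
  have : NeZero (p ^ q) := ⟨(Nat.pow_pos hp).ne'⟩
  have h1 : ZMod.castHom (pow_dvd_pow p htq) (ZMod (p ^ t)) (u - 1) = 0 := by
    rw [map_sub, hu, map_one, sub_self]
  have h2 : ((u - 1).val : ZMod (p ^ t)) = 0 := by
    rw [← h1]
    conv_rhs => rw [← ZMod.natCast_zmod_val (u - 1)]
    rw [map_natCast]
  rw [ZMod.natCast_eq_zero_iff] at h2
  obtain ⟨c, hc⟩ := h2
  refine ⟨(c : ZMod (p ^ q)), ?_⟩
  have h3 : u - 1 = (p : ZMod (p ^ q)) ^ t * (c : ZMod (p ^ q)) := by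
    conv_lhs => rw [← ZMod.natCast_zmod_val (u - 1)]
    rw [hc]
    push_cast
    ring
  rw [← h3]
  ring

private theorem co_dvd (p q t : ℕ) (hp : 0 < p) (htq : t ≤ q) (Z : ℤ)
    (h : (p : ZMod (p ^ q)) ^ t ∣ (Z : ZMod (p ^ q))) : ((p : ℤ) ^ t) ∣ Z := by
  have : NeZero (p ^ q) := ⟨(Nat.pow_pos hp).ne'⟩
  obtain ⟨c, hc⟩ := h
  have h1 : (((Z - (p : ℤ) ^ t * (c.val : ℤ) : ℤ)) : ZMod (p ^ q)) = 0 := by
    push_cast
    rw [hc, ZMod.natCast_zmod_val, sub_self]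
  rw [ZMod.intCast_zmod_eq_zero_iff_dvd] at h1
  have h2 : ((p : ℤ) ^ t) ∣ (((p ^ q : ℕ)) : ℤ) := by
    push_cast
    exact pow_dvd_pow _ htq
  have h3 := h2.trans h1
  have h4 := dvd_add h3 (Dvd.intro (c.val : ℤ) (rfl : (p : ℤ) ^ t * (c.val : ℤ) = _))
  rwa [sub_add_cancel] at h4

/-- The core, nondegenerate case.  Proof: `C1 = m / (4 s)` (floor), rows and `f = ff` as in `rows`,
`p` from `siegel`, `a` from `zero_lemma` (`κ = ± R_k`, `ρ = R_x`; `ρ^B = κ^A` would give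
`B x = A k`), the integer `Z = ∑ p e j (±1)^(mt e - j) M_(e,j) (e.choose a)` with `M` from
`heights`; `Z ≠ 0`; in `ZMod (p ^ (2 s m))` `px` gives `p ^ (2 s m - a) ∣ Z`
(`chi r (p^(2sm)) x = 1 + p ρ1`, `± chi r (p^(2sm)) k = 1 + p^m κ1` by `chi_cast`); `num_core`. -/
theorem core_nd (δ : ℝ) (hδ : 0 < δ) (hδ1 : δ ≤ 1 / 2) (s : ℕ) (hs : s = ⌈8 / δ⌉₊) :
    ∃ W : ℝ, 1 ≤ W ∧ ∀ (ι : Type) [Fintype ι] (r : ι → ℕ) (k x : ι → ℤ) (α w L b : ℝ),
    Rel r k x α w L b →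
    ∀ (p m A B : ℕ), p.Prime → ∀ (h : ∀ i, (r i).Coprime (p ^ m)) (h' : ∀ i, (r i).Coprime p),
    (chi r (p ^ m) h k = 1 ∨ chi r (p ^ m) h k = -1) → chi r p h' x = 1 →
    0 ≤ w → 0 ≤ L → b ≤ 1 + δ / 8 → b * w ≤ (1 - δ) * Real.log p →
    L ≤ (1 + δ / 8) * (m * Real.log p) → W ≤ (m : ℝ) → W ≤ Real.log p → 0 ≤ α → α ≤ 1 / 8 →
    A.Coprime B → W ≤ (B : ℝ) → 8 * s ^ 2 * B ≤ m → |α - (A : ℝ) / B| ≤ 16 * s ^ 2 / (m * B) →
    (B : ℤ) • x ≠ (A : ℤ) • k → False := by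
  have hs1 : 1 ≤ s := by
    rw [hs, Nat.one_le_ceil_iff]
    positivity
  obtain ⟨K, hK, hsieg⟩ := siegel s hs1
  obtain ⟨W1, hW1, hnum⟩ := num_core δ K hδ hδ1 hK s hs
  refine ⟨W1 + 32 * (s : ℝ) ^ 4 + 128 * (s : ℝ) ^ 2 + 4 * s, by
    have : (0 : ℝ) ≤ 32 * (s : ℝ) ^ 4 + 128 * (s : ℝ) ^ 2 + 4 * s := by positivity
    linarith, ?_⟩
  intro ι _ r k x α w L b H p m A B hp h h' hk hx hw hL hb hbw hLm hWm hWp hα0 hα1 hAB hWB hBm hαAB
    hne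
  have e0 : (0 : ℝ) ≤ 32 * (s : ℝ) ^ 4 := by positivity
  have e1 : (0 : ℝ) ≤ 128 * (s : ℝ) ^ 2 := by positivity
  have e2 : (0 : ℝ) ≤ 4 * (s : ℝ) := by positivity
  have hm4 : 4 * s ≤ m := by
    have : (4 * (s : ℝ)) ≤ m := by linarith
    exact_mod_cast this
  have hB32 : 32 * s ^ 4 ≤ B := by
    have : (32 * (s : ℝ) ^ 4) ≤ B := by linarith
    exact_mod_cast this
  have hB128 : 128 * s ^ 2 ≤ B := by
    have : (128 * (s : ℝ) ^ 2) ≤ B := by linarith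
    exact_mod_cast this
  have hB1 : 1 ≤ B := by
    have : 1 ≤ s ^ 2 := Nat.one_le_pow _ _ hs1
    omega
  have hm1 : 1 ≤ m := by omega
  have hp0 : 0 < p := hp.pos
  have hr1 : ∀ i, 1 ≤ r i := fun i => (H.prime i).one_le
  -- parameters
  obtain ⟨C1, hC1d⟩ : ∃ C1 : ℕ, C1 = m / (4 * s) := ⟨_, rfl⟩
  have hC1 : 4 * s * C1 ≤ m := by rw [hC1d]; exact Nat.mul_div_le m (4 * s)
  have hC1' : m < 4 * s * (C1 + 1) := by
    rw [hC1d]
    exact Nat.lt_mul_div_succ m (by omega)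
  have hC11 : 1 ≤ C1 := by
    rw [hC1d]
    exact (Nat.one_le_div_iff (by omega)).2 hm4
  have hmC1 : m ≤ 8 * s * C1 := by
    have h1 : 4 * s * (C1 + 1) ≤ 4 * s * (2 * C1) := Nat.mul_le_mul_left _ (by omega)
    have h2 : 4 * s * (2 * C1) = 8 * s * C1 := by ring
    omega
  have hC1m : C1 ≤ m := by
    rw [hC1d]
    exact Nat.div_le_self _ _
  obtain ⟨C, hC⟩ : ∃ C : ℕ, C = CC s m C1 := ⟨_, rfl⟩
  obtain ⟨C0, hC0⟩ : ∃ C0 : ℤ, C0 = ((C / 2 : ℕ) : ℤ) := ⟨_, rfl⟩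
  obtain ⟨β0, hβ0⟩ : ∃ β0 : ℤ, β0 = ((s * B / 2 : ℕ) : ℤ) := ⟨_, rfl⟩
  have hrows := fun (e j : ℕ) (he : e < C) (hj : j < s) =>
    rows s m C1 A B α hs1 hB1 hB128 hBm hC1 hα0 hα1 hαAB C hC C0 β0 hC0 hβ0 e j he hj
  obtain ⟨q, hq0, hq1, hq2⟩ := hsieg m C1 (ff A B C C0 β0) hm1 hmC1 hC1m
    (fun e he j hj => by
      rw [← hC] at he ⊢
      exact (hrows e j he hj).2.2.1)
  rw [← hC] at hq0 hq2
  -- the sign
  obtain ⟨σ, hσ⟩ : ∃ σ : ℤˣ, (σ = 1 ∧ chi r (p ^ m) h k = 1) ∨ (σ = -1 ∧ chi r (p ^ m) h k = -1) := by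
    rcases hk with hk | hk
    · exact ⟨1, Or.inl ⟨rfl, hk⟩⟩
    · exact ⟨-1, Or.inr ⟨rfl, hk⟩⟩
  -- the zero lemma
  obtain ⟨ρ, hρ⟩ : ∃ ρ : ℂ, ρ = (Nu r x : ℂ) / (De r x : ℂ) := ⟨_, rfl⟩
  obtain ⟨Rk, hRk⟩ : ∃ Rk : ℂ, Rk = (Nu r k : ℂ) / (De r k : ℂ) := ⟨_, rfl⟩
  have hρ0 : ρ ≠ 0 := by rw [hρ]; exact co_q_ne ℂ r hr1 x
  have hRk0 : Rk ≠ 0 := by rw [hRk]; exact co_q_ne ℂ r hr1 k
  have hσ0 : (((σ : ℤˣ) : ℤ) : ℂ) ≠ 0 := by
    rcases Int.units_eq_one_or σ with h2 | h2 <;> rw [h2] <;> simp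
  have hnd : ρ ^ B ≠ ((((σ : ℤˣ) : ℤ) : ℂ) * Rk) ^ A := by
    intro h1
    rw [hρ, hRk] at h1
    exact hne (co_nd r H.prime H.inj x k A B σ h1)
  obtain ⟨a, ham, hE⟩ := zero_lemma s m C1 A B C0 β0 (mt A B C0 β0 (C - 1)) hAB hs1 hB32 hBm hC1 ρ
    ((((σ : ℤˣ) : ℤ) : ℂ) * Rk) hρ0 (mul_ne_zero hσ0 hRk0) hnd (ff A B C C0 β0)
    (fun e he j hj => by
      rw [← hC] at he
      exact (hrows e j he hj).2.2.2)
    q (by rw [← hC]; exact hq0) (by rw [← hC]; exact hq2)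
  rw [← hC] at hE
  -- heights
  obtain ⟨V, hV⟩ : ∃ V : Finset (ℤ × ℤ), V = ((range C) ×ˢ (range s)).image
      (fun ej => ((ej.1 : ℤ) - C0, mt A B C0 β0 ej.1 - (ej.2 : ℤ))) := ⟨_, rfl⟩
  have hVmem : ∀ e < C, ∀ j < s, ((e : ℤ) - C0, mt A B C0 β0 e - (j : ℤ)) ∈ V := by
    intro e he j hj
    rw [hV, Finset.mem_image]
    exact ⟨(e, j), Finset.mem_product.2 ⟨Finset.mem_range.2 he, Finset.mem_range.2 hj⟩, rfl⟩
  obtain ⟨cm, hcm⟩ : ∃ cm : ℝ, cm = m * (s + 1 / 2) + m / (8 * s) + 1 := ⟨_, rfl⟩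
  obtain ⟨d, hd⟩ : ∃ d : ℝ, d = s / 2 + 32 * s ^ 3 / B := ⟨_, rfl⟩
  obtain ⟨n, hn⟩ := heights H V cm d (by rw [hcm]; positivity) (by rw [hd]; positivity)
    (fun v hv => by
      rw [hV, Finset.mem_image] at hv
      obtain ⟨⟨e, j⟩, hej, rfl⟩ := hv
      rw [Finset.mem_product, Finset.mem_range, Finset.mem_range] at hej
      rw [hcm]
      exact (hrows e j hej.1 hej.2).1)
    (fun v hv => by
      rw [hV, Finset.mem_image] at hv
      obtain ⟨⟨e, j⟩, hej, rfl⟩ := hv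
      rw [Finset.mem_product, Finset.mem_range, Finset.mem_range] at hej
      rw [hd]
      exact (hrows e j hej.1 hej.2).2.1)
  choose! M hM1 hM2 using hn
  obtain ⟨D, hD⟩ : ∃ D : ℕ, D = ∏ i, r i ^ n i := ⟨_, rfl⟩
  rw [← hD] at hM1
  have hD0 : D ≠ 0 := by
    rw [hD]
    exact Finset.prod_ne_zero_iff.2 fun i _ => pow_ne_zero _ (H.prime i).ne_zero
  -- the integer
  obtain ⟨Z, hZ⟩ : ∃ Z : ℤ, Z = ∑ e ∈ range C, ∑ j ∈ range s,
      q e j * ((σ ^ (-(mt A B C0 β0 e - (j : ℤ))) : ℤˣ) : ℤ) *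
        (M ((e : ℤ) - C0, mt A B C0 β0 e - (j : ℤ)) : ℤ) * ((e.choose a : ℕ) : ℤ) := ⟨_, rfl⟩
  have hZne : Z ≠ 0 := by
    have h1 : (Z : ℂ) = (D : ℂ) * ρ ^ (-C0) * ∑ e ∈ range C, ∑ j ∈ range s,
        (q e j : ℂ) * ρ ^ e * ((((σ : ℤˣ) : ℤ) : ℂ) * Rk) ^ (-(mt A B C0 β0 e - (j : ℤ))) *
          ((e.choose a : ℕ) : ℂ) := by
      rw [hZ]
      push_cast
      rw [Finset.mul_sum]
      refine Finset.sum_congr rfl fun e he => ?_
      rw [Finset.mul_sum]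
      refine Finset.sum_congr rfl fun j hj => ?_
      rw [Finset.mem_range] at he hj
      have h2 := hM1 _ (hVmem e he j hj)
      have h3 : (M ((e : ℤ) - C0, mt A B C0 β0 e - (j : ℤ)) : ℂ) =
          (D : ℂ) * (ρ ^ ((e : ℤ) - C0) * Rk ^ (-(mt A B C0 β0 e - (j : ℤ)))) := by
        rw [hρ, hRk, ← co_pt ℂ r hr1 x k]
        have h4 : (De r (pt x k ((e : ℤ) - C0, mt A B C0 β0 e - (j : ℤ))) : ℂ) ≠ 0 := by
          have := de_pos r hr1 (pt x k ((e : ℤ) - C0, mt A B C0 β0 e - (j : ℤ)))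
          exact_mod_cast this.ne'
        rw [← mul_div_assoc, eq_div_iff h4]
        exact_mod_cast h2
      rw [h3, co_sig ℂ, mul_zpow, sub_eq_add_neg (e : ℤ) C0, zpow_add₀ hρ0, zpow_natCast]
      ring
    intro h0
    rw [h0, Int.cast_zero] at h1
    rcases mul_eq_zero.1 h1.symm with h2 | h2
    · rcases mul_eq_zero.1 h2 with h3 | h3
      · exact hD0 (by exact_mod_cast h3)
      · exact (zpow_ne_zero _ hρ0) h3
    · exact hE h2
  -- modulo the power of the prime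
  have hQ : ∀ i, (r i).Coprime (p ^ (2 * s * m)) := fun i => (h' i).pow_right _
  have hmQ : m ≤ 2 * s * m := by nlinarith
  have hpow1 : ∀ t, t ≤ 2 * s * m → p ^ t ∣ p ^ (2 * s * m) := fun t ht => pow_dvd_pow _ ht
  obtain ⟨su, hsu⟩ : ∃ su : (ZMod (p ^ (2 * s * m)))ˣ,
      su = Units.map (Int.castRingHom (ZMod (p ^ (2 * s * m)))).toMonoidHom σ := ⟨_, rfl⟩
  obtain ⟨cx, hcx⟩ : ∃ cx, cx = chi r (p ^ (2 * s * m)) hQ x := ⟨_, rfl⟩
  obtain ⟨ck, hck⟩ : ∃ ck, ck = chi r (p ^ (2 * s * m)) hQ k := ⟨_, rfl⟩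
  obtain ⟨ρ1, hρ1⟩ : ∃ c : ZMod (p ^ (2 * s * m)), (cx : ZMod (p ^ (2 * s * m))) =
      1 + (p : ZMod (p ^ (2 * s * m))) * c := by
    have h2 := co_lift p (2 * s * m) 1 hp0 (by nlinarith) (cx : ZMod (p ^ (2 * s * m))) (by
      rw [hcx, chi_cast r (p ^ (2 * s * m)) (p ^ 1) hQ (fun i => (h' i).pow_right _)
        (hpow1 1 (by nlinarith)) x]
      have h3 : ∀ (P : ℕ) (hP : P = p) (hc : ∀ i, (r i).Coprime P), chi r P hc x = 1 := by
        intro P hP hc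
        subst hP
        exact hx
      rw [h3 (p ^ 1) (pow_one p)]
      rfl)
    rwa [pow_one] at h2
  obtain ⟨κ1, hκ1⟩ : ∃ c : ZMod (p ^ (2 * s * m)), ((su * ck : (ZMod (p ^ (2 * s * m)))ˣ) :
      ZMod (p ^ (2 * s * m))) = 1 + (p : ZMod (p ^ (2 * s * m))) ^ m * c := by
    refine co_lift p (2 * s * m) m hp0 hmQ _ ?_
    rw [Units.val_mul, map_mul, hck, chi_cast r (p ^ (2 * s * m)) (p ^ m) hQ h (hpow1 m hmQ) k]
    have h3 : (su : ZMod (p ^ (2 * s * m))) = (((σ : ℤˣ) : ℤ) : ZMod (p ^ (2 * s * m))) := by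
      rw [hsu]
      rfl
    rw [h3, map_intCast]
    rcases hσ with ⟨h4, h5⟩ | ⟨h4, h5⟩ <;> rw [h4, h5] <;> simp
  have hZdvd : (p : ℤ) ^ (2 * s * m - a) ∣ Z := by
    refine co_dvd p (2 * s * m) _ hp0 (Nat.sub_le _ _) Z ?_
    have hMz : ∀ e < C, ∀ j < s, (M ((e : ℤ) - C0, mt A B C0 β0 e - (j : ℤ)) :
        ZMod (p ^ (2 * s * m))) = (D : ZMod (p ^ (2 * s * m))) *
          ((cx ^ ((e : ℤ) - C0) * ck ^ (-(mt A B C0 β0 e - (j : ℤ))) : (ZMod (p ^ (2 * s * m)))ˣ) :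
            ZMod (p ^ (2 * s * m))) := by
      intro e he j hj
      have h2 := congrArg (fun t : ℕ => (t : ZMod (p ^ (2 * s * m)))) (hM1 _ (hVmem e he j hj))
      simp only [Nat.cast_mul] at h2
      rw [nu_eq r (p ^ (2 * s * m)) hQ, ← mul_assoc] at h2
      have h3 : IsUnit ((De r (pt x k ((e : ℤ) - C0, mt A B C0 β0 e - (j : ℤ))) : ℕ) :
          ZMod (p ^ (2 * s * m))) := by
        rw [ZMod.isUnit_iff_coprime]
        exact Nat.Coprime.prod_left fun i _ => Nat.Coprime.pow_left _ (hQ i)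
      have h4 := h3.mul_right_cancel h2
      rw [h4]
      congr 2
      unfold pt
      rw [chi_sub, chi_zsmul, chi_zsmul, ← zpow_neg, ← hcx, ← hck]
    have hpx := px (R := ZMod (p ^ (2 * s * m))) m s C (p : ZMod (p ^ (2 * s * m))) ρ1 κ1
      (ff A B C C0 β0) q hq2 a
    have hsum : ((cx ^ C0 * (su * ck) ^ (mt A B C0 β0 (C - 1)) : (ZMod (p ^ (2 * s * m)))ˣ) :
        ZMod (p ^ (2 * s * m))) * (Z : ZMod (p ^ (2 * s * m))) =
        (D : ZMod (p ^ (2 * s * m))) * ∑ e ∈ range C, ∑ j ∈ range s,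
          (q e j : ZMod (p ^ (2 * s * m))) * (1 + (p : ZMod (p ^ (2 * s * m))) * ρ1) ^ e *
            (1 + (p : ZMod (p ^ (2 * s * m))) ^ m * κ1) ^ (ff A B C C0 β0 e j) *
              ((e.choose a : ℕ) : ZMod (p ^ (2 * s * m))) := by
      rw [hZ]
      push_cast
      rw [Finset.mul_sum, Finset.mul_sum]
      refine Finset.sum_congr rfl fun e he => ?_
      rw [Finset.mul_sum, Finset.mul_sum]
      refine Finset.sum_congr rfl fun j hj => ?_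
      rw [Finset.mem_range] at he hj
      have h5 : ((((σ ^ (-(mt A B C0 β0 e - (j : ℤ))) : ℤˣ) : ℤ)) : ZMod (p ^ (2 * s * m))) =
          ((su ^ (-(mt A B C0 β0 e - (j : ℤ))) : (ZMod (p ^ (2 * s * m)))ˣ) :
            ZMod (p ^ (2 * s * m))) := by
        rw [hsu, ← map_zpow]
        rfl
      have h6 : (((cx ^ C0 * (su * ck) ^ (mt A B C0 β0 (C - 1))) *
          ((su ^ (-(mt A B C0 β0 e - (j : ℤ)))) *
            (cx ^ ((e : ℤ) - C0) * ck ^ (-(mt A B C0 β0 e - (j : ℤ))))) :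
              (ZMod (p ^ (2 * s * m)))ˣ)) = cx ^ e * (su * ck) ^ (ff A B C C0 β0 e j) := by
        rw [← zpow_natCast cx e, ← zpow_natCast (su * ck), (hrows e j he hj).2.2.2]
        have h7 : (su ^ (-(mt A B C0 β0 e - (j : ℤ)))) *
            (cx ^ ((e : ℤ) - C0) * ck ^ (-(mt A B C0 β0 e - (j : ℤ)))) =
            cx ^ ((e : ℤ) - C0) * (su * ck) ^ (-(mt A B C0 β0 e - (j : ℤ))) := by
          rw [mul_zpow]
          exact mul_left_comm _ _ _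
        rw [h7, mul_mul_mul_comm, ← zpow_add, ← zpow_add]
        congr 2 <;> ring
      have h8 := congrArg (fun u : (ZMod (p ^ (2 * s * m)))ˣ => (u : ZMod (p ^ (2 * s * m)))) h6
      simp only [Units.val_mul, Units.val_pow_eq_pow_val] at h8
      rw [Units.val_mul] at hκ1
      rw [← hρ1, ← hκ1, h5, hMz e he j hj]
      simp only [Units.val_mul]
      linear_combination ((q e j : ZMod (p ^ (2 * s * m))) * (D : ZMod (p ^ (2 * s * m))) *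
        ((e.choose a : ℕ) : ZMod (p ^ (2 * s * m)))) * h8
    have h9 : (p : ZMod (p ^ (2 * s * m))) ^ (2 * s * m - a) ∣
        ((cx ^ C0 * (su * ck) ^ (mt A B C0 β0 (C - 1)) : (ZMod (p ^ (2 * s * m)))ˣ) :
        ZMod (p ^ (2 * s * m))) * (Z : ZMod (p ^ (2 * s * m))) := by
      rw [hsum]
      exact Dvd.dvd.mul_left hpx _
    exact (Units.dvd_mul_left).1 h9
  -- the size
  have hZle : |(Z : ℝ)| ≤ (C : ℝ) * s * Real.exp (K * m) * 2 ^ C *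
      Real.exp (b * (cm * w + 2 * d * L)) := by
    rw [hZ]
    push_cast
    have hterm : ∀ e ∈ range C, ∀ j ∈ range s,
        |(q e j : ℝ) * (((σ ^ (-(mt A B C0 β0 e - (j : ℤ))) : ℤˣ) : ℤ) : ℝ) *
          (M ((e : ℤ) - C0, mt A B C0 β0 e - (j : ℤ)) : ℝ) * ((e.choose a : ℕ) : ℝ)| ≤
        Real.exp (K * m) * 2 ^ C * Real.exp (b * (cm * w + 2 * d * L)) := by
      intro e he j hj
      rw [Finset.mem_range] at he hj
      have g1 : |(((σ ^ (-(mt A B C0 β0 e - (j : ℤ))) : ℤˣ) : ℤ) : ℝ)| = 1 := by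
        rcases Int.units_eq_one_or (σ ^ (-(mt A B C0 β0 e - (j : ℤ)))) with h2 | h2 <;> rw [h2] <;>
          simp
      have g2 : ((e.choose a : ℕ) : ℝ) ≤ 2 ^ C := by
        have h3 : e.choose a ≤ 2 ^ e := Nat.choose_le_two_pow _ _
        have h4 : 2 ^ e ≤ 2 ^ C := Nat.pow_le_pow_right (by norm_num) he.le
        exact_mod_cast h3.trans h4
      have g3 := hM2 _ (hVmem e he j hj)
      rw [abs_mul, abs_mul, abs_mul, g1, mul_one, Nat.abs_cast, Nat.abs_cast]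
      calc |(q e j : ℝ)| * (M ((e : ℤ) - C0, mt A B C0 β0 e - (j : ℤ)) : ℝ) * ((e.choose a : ℕ) : ℝ)
          ≤ Real.exp (K * m) * Real.exp (b * (cm * w + 2 * d * L)) * 2 ^ C := by
            refine mul_le_mul (mul_le_mul (hq1 e j) g3 (Nat.cast_nonneg _) (Real.exp_pos _).le) g2
              (Nat.cast_nonneg _) (by positivity)
        _ = _ := by ring
    refine (Finset.abs_sum_le_sum_abs _ _).trans ?_
    have h2 : ∀ e ∈ range C, |∑ j ∈ range s, (q e j : ℝ) *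
        (((σ ^ (-(mt A B C0 β0 e - (j : ℤ))) : ℤˣ) : ℤ) : ℝ) *
          (M ((e : ℤ) - C0, mt A B C0 β0 e - (j : ℤ)) : ℝ) * ((e.choose a : ℕ) : ℝ)| ≤
        s * (Real.exp (K * m) * 2 ^ C * Real.exp (b * (cm * w + 2 * d * L))) := by
      intro e he
      refine (Finset.abs_sum_le_sum_abs _ _).trans ?_
      refine (Finset.sum_le_card_nsmul _ _ _ (hterm e he)).trans ?_
      rw [Finset.card_range, nsmul_eq_mul]
    refine (Finset.sum_le_card_nsmul _ _ _ h2).trans ?_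
    rw [Finset.card_range, nsmul_eq_mul]
    apply le_of_eq
    ring
  have hfin := hnum m C1 (Real.log p) w L b B (by linarith) (by linarith) (by linarith) hw hL H.hb1
    hb hbw hLm hC1
  rw [← hC, ← hcm, ← hd] at hfin
  have hpR : (0 : ℝ) < p := by exact_mod_cast hp0
  have hexp : Real.exp ((2 * s - 1) * m * Real.log p) = (p : ℝ) ^ ((2 * s - 1) * m) := by
    rw [← Real.exp_log hpR, ← Real.exp_nat_mul, Real.log_exp]
    congr 1
    rw [Nat.cast_mul, Nat.cast_sub (by omega)]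
    push_cast
    ring
  rw [hexp] at hfin
  have hlt : |(Z : ℝ)| < (p : ℝ) ^ ((2 * s - 1) * m) := lt_of_le_of_lt hZle hfin
  have hle : (p : ℤ) ^ (2 * s * m - a) ≤ |Z| :=
    Int.le_of_dvd (abs_pos.2 hZne) ((dvd_abs _ _).2 hZdvd)
  have hexps : (2 * s - 1) * m ≤ 2 * s * m - a := by
    rw [Nat.sub_mul, one_mul]
    omega
  have hlow : (p : ℝ) ^ ((2 * s - 1) * m) ≤ |(Z : ℝ)| := by
    have h1 : (p : ℝ) ^ ((2 * s - 1) * m) ≤ (p : ℝ) ^ (2 * s * m - a) :=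
      pow_le_pow_right₀ (by exact_mod_cast hp0) hexps
    refine h1.trans ?_
    exact_mod_cast hle
  linarith

end Pool.ZC
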