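import Pool.Agent.Helper1.ZC.CO
import Pool.Agent.Helper44.ZB.CoreP

/-! Project ZC, piece CS: the core. -/

set_option autoImplicit false

namespace Pool.ZC

open Finset Pool.RA Pool.ZB

/-- The degenerate case: `B x = A k`.  Proof: `x - α k = (A / B - α) k`; `core_p` (`δ = 1/6`) with
`S = {p}`, `n = 1`, `Tm = m`, the same `b`, and `w' = max W' (|α - A/B| 2 L) ≤ (2/5) log p`. -/
theorem core_deg : ∃ W : ℝ, 1 ≤ W ∧ ∀ (ι : Type) [Fintype ι] (r : ι → ℕ) (k x : ι → ℤ)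
    (α w L b : ℝ), Rel r k x α w L b →
    ∀ (p m A B : ℕ), p.Prime → ∀ (h : ∀ i, (r i).Coprime (p ^ m)) (h' : ∀ i, (r i).Coprime p),
    (chi r (p ^ m) h k = 1 ∨ chi r (p ^ m) h k = -1) → chi r p h' x = 1 →
    b ≤ 17 / 16 → m * Real.log p ≤ L → L ≤ 17 / 16 * (m * Real.log p) → W ≤ (m : ℝ) →
    W ≤ Real.log p → W * Real.log p / L ≤ α → α ≤ 1 / W → 1 ≤ B →
    |α - (A : ℝ) / B| * (2 * L) ≤ 2 / 5 * Real.log p → (B : ℤ) • x = (A : ℤ) • k → False := by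
  sorry

/-- The core.  Proof: Dirichlet (`Real.exists_rat_abs_sub_le_and_den_le` with
`n = m / (8 s^2)`), `core_nd`, `core_deg`. -/
theorem core_s (δ : ℝ) (hδ : 0 < δ) (hδ1 : δ ≤ 1 / 2) : ∃ W : ℝ, 1 ≤ W ∧
    ∀ (ι : Type) [Fintype ι] (r : ι → ℕ) (k x : ι → ℤ) (α w L b : ℝ), Rel r k x α w L b →
    ∀ (p m : ℕ), p.Prime → ∀ (h : ∀ i, (r i).Coprime (p ^ m)) (h' : ∀ i, (r i).Coprime p),
    (chi r (p ^ m) h k = 1 ∨ chi r (p ^ m) h k = -1) → chi r p h' x = 1 →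
    W ≤ w → W * w ≤ L → W * w / L ≤ α → α ≤ 1 / W → Real.log p / 2 ≤ w →
    b * w ≤ (1 - δ) * Real.log p → b ≤ 1 + δ / 8 → m * Real.log p ≤ L →
    L ≤ (1 + δ / 8) * (m * Real.log p) → False := by
  sorry

end Pool.ZC
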