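import Pool.Agent.Helper1.ZC.Defs
import Mathlib

/-! Project ZC, piece DIM: linear algebra. -/

set_option autoImplicit false

namespace Pool.ZC

open Finset Polynomial

/-- If in every class outside `Bad` the first `e` of the `s` vectors are combinations of the others
(because of `e` relations with an invertible matrix on these `e` vectors), the dimension is at most
`(s - e) B + e Z`. -/
theorem dim_le (s B e Z : ℕ) (he : e ≤ s) (φ : ℕ → ℕ → ℂ[X]) (Bad : Finset ℕ)
    (hBad : Bad ⊆ range B) (hZ : Bad.card ≤ Z)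
    (hg : ∀ i < B, i ∉ Bad → ∃ a : Fin e → ℕ → ℂ, (∀ l, ∑ j ∈ range s, C (a l j) * φ i j = 0) ∧
      (Matrix.of fun l j : Fin e => a l (j : ℕ)).det ≠ 0) :
    Module.finrank ℂ (Submodule.span ℂ {f | ∃ i < B, ∃ j < s, f = φ i j}) ≤
      (s - e) * B + e * Z := by
  classical
  set F : Finset ℂ[X] := ((range B ×ˢ Finset.Ico e s).image fun q => φ q.1 q.2) ∪
    ((Bad ×ˢ range e).image fun q => φ q.1 q.2) with hF
  have h1 : ∀ i < B, ∀ j, e ≤ j → j < s → φ i j ∈ Submodule.span ℂ (F : Set ℂ[X]) := by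
    intro i hi j hj1 hj2
    refine Submodule.subset_span ?_
    rw [hF, Finset.coe_union]
    refine Or.inl ?_
    rw [Finset.coe_image]
    exact ⟨(i, j), by simp [hi, hj1, hj2], rfl⟩
  have h2 : ∀ i ∈ Bad, ∀ j < e, φ i j ∈ Submodule.span ℂ (F : Set ℂ[X]) := by
    intro i hi j hj
    refine Submodule.subset_span ?_
    rw [hF, Finset.coe_union]
    refine Or.inr ?_
    rw [Finset.coe_image]
    exact ⟨(i, j), by simp [hi, hj], rfl⟩
  have h3 : ∀ i < B, i ∉ Bad → ∀ j < e, φ i j ∈ Submodule.span ℂ (F : Set ℂ[X]) := by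
    intro i hi hib j0 hj0
    obtain ⟨a, ha, hdet⟩ := hg i hi hib
    set A : Matrix (Fin e) (Fin e) ℂ := Matrix.of fun l j : Fin e => a l (j : ℕ) with hA
    have hinv : A⁻¹ * A = 1 := Matrix.nonsing_inv_mul A (isUnit_iff_ne_zero.mpr hdet)
    have e1 : ∑ l : Fin e, C (A⁻¹ ⟨j0, hj0⟩ l) * ∑ j ∈ range s, C (a l j) * φ i j = 0 :=
      Finset.sum_eq_zero fun l _ => by rw [ha l, mul_zero]
    have e2 : ∑ j ∈ range s, C (∑ l : Fin e, A⁻¹ ⟨j0, hj0⟩ l * a l j) * φ i j = 0 := by
      rw [← e1]
      simp only [Finset.mul_sum]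
      rw [Finset.sum_comm]
      refine Finset.sum_congr rfl fun j _ => ?_
      rw [map_sum, Finset.sum_mul]
      refine Finset.sum_congr rfl fun l _ => ?_
      rw [C_mul, mul_assoc]
    have e3 : ∑ j ∈ range e, C (∑ l : Fin e, A⁻¹ ⟨j0, hj0⟩ l * a l j) * φ i j = φ i j0 := by
      rw [Finset.sum_eq_single j0]
      · have h4 : ∑ l : Fin e, A⁻¹ ⟨j0, hj0⟩ l * a l j0 = 1 := by
          have h5 := congrFun (congrFun hinv ⟨j0, hj0⟩) ⟨j0, hj0⟩
          rw [Matrix.mul_apply, Matrix.one_apply_eq] at h5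
          exact h5
        rw [h4, C_1, one_mul]
      · intro j hj hne
        have hj' : j < e := Finset.mem_range.mp hj
        have h4 : ∑ l : Fin e, A⁻¹ ⟨j0, hj0⟩ l * a l j = 0 := by
          have h5 := congrFun (congrFun hinv ⟨j0, hj0⟩) ⟨j, hj'⟩
          rw [Matrix.mul_apply, Matrix.one_apply_ne (by
            intro h6
            exact hne (Fin.mk.inj_iff.mp h6).symm)] at h5
          exact h5
        rw [h4, C_0, zero_mul]
      · intro h4
        exact absurd (Finset.mem_range.mpr hj0) h4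
    have e4 : φ i j0 = -∑ j ∈ Finset.Ico e s, C (∑ l : Fin e, A⁻¹ ⟨j0, hj0⟩ l * a l j) * φ i j := by
      rw [← Finset.sum_range_add_sum_Ico _ he, e3] at e2
      exact eq_neg_of_add_eq_zero_left e2
    rw [e4]
    refine Submodule.neg_mem _ (Submodule.sum_mem _ fun j hj => ?_)
    rw [← Polynomial.smul_eq_C_mul]
    refine Submodule.smul_mem _ _ (h1 i hi j ?_ ?_)
    · exact (Finset.mem_Ico.mp hj).1
    · exact (Finset.mem_Ico.mp hj).2
  have hle : Submodule.span ℂ {f | ∃ i < B, ∃ j < s, f = φ i j} ≤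
      Submodule.span ℂ (F : Set ℂ[X]) := by
    rw [Submodule.span_le]
    rintro f ⟨i, hi, j, hj, rfl⟩
    rcases Nat.lt_or_ge j e with hje | hje
    · by_cases hib : i ∈ Bad
      · exact h2 i hib j hje
      · exact h3 i hi hib j hje
    · exact h1 i hi j hje hj
  calc Module.finrank ℂ (Submodule.span ℂ {f | ∃ i < B, ∃ j < s, f = φ i j})
      ≤ Module.finrank ℂ (Submodule.span ℂ (F : Set ℂ[X])) := Submodule.finrank_mono hle
    _ ≤ F.card := finrank_span_finset_le_card F
    _ ≤ (range B ×ˢ Finset.Ico e s).card + (Bad ×ˢ range e).card :=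
        (Finset.card_union_le _ _).trans (Nat.add_le_add Finset.card_image_le Finset.card_image_le)
    _ = (s - e) * B + e * Bad.card := by
        rw [Finset.card_product, Finset.card_product, Finset.card_range, Finset.card_range,
          Nat.card_Ico]
        ring
    _ ≤ (s - e) * B + e * Z := Nat.add_le_add_left (Nat.mul_le_mul_left _ hZ) _

/-- Relations between graded polynomials of different classes split. -/
theorem split_rel (s B : ℕ) (φ : ℕ → ℕ → ℂ[X]) (u : ℕ → ℕ)
    (hu : ∀ i < B, ∀ i' < B, u i = u i' → i = i')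
    (hφ : ∀ i < B, ∀ j < s, ∀ n, (φ i j).coeff n ≠ 0 → n % B = u i) (a : ℕ → ℕ → ℂ)
    (h : ∑ i ∈ range B, ∑ j ∈ range s, C (a i j) * φ i j = 0) :
    ∀ i < B, ∑ j ∈ range s, C (a i j) * φ i j = 0 := by
  intro i hi
  ext n
  rw [coeff_zero, finsetSum_coeff]
  by_cases hn : n % B = u i
  · have h1 := congrArg (fun p => coeff p n) h
    simp only [finsetSum_coeff, coeff_zero] at h1
    rw [Finset.sum_eq_single i] at h1
    · exact h1
    · intro i' hi' hne
      refine Finset.sum_eq_zero fun j hj => ?_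
      rw [coeff_C_mul]
      by_contra h2
      have h3 := hφ i' (Finset.mem_range.mp hi') j (Finset.mem_range.mp hj) n
        (fun h4 => h2 (by rw [h4, mul_zero]))
      exact hne (hu i' (Finset.mem_range.mp hi') i hi (h3.symm.trans hn))
    · intro h2
      exact absurd (Finset.mem_range.mpr hi) h2
  · refine Finset.sum_eq_zero fun j hj => ?_
    rw [coeff_C_mul]
    by_contra h2
    exact hn (hφ i hi j (Finset.mem_range.mp hj) n (fun h4 => h2 (by rw [h4, mul_zero])))

end Pool.ZC
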