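import Pool.Agent.Helper44.ZB.Defs

/-! Project ZC (MP_4ab349_nt): `log c ≤ C rad(abc)^(1/6+ε)` for all abc triples.  Definitions.
Paper: note 2769. -/

set_option autoImplicit false

namespace Pool.ZC

open Finset

/-- All exponents of the polynomial lie in one residue class modulo `B`. -/
def Graded (B : ℕ) (f : Polynomial ℂ) : Prop := ∃ u : ℕ, ∀ n : ℕ, f.coeff n ≠ 0 → n % B = u

/-- The orthogonality relations of the vector `p`: all products of binomials of weight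
`i1 + m i2 < 2 s m`. -/
def Orth (m s C : ℕ) (f : ℕ → ℕ → ℕ) (p : ℕ → ℕ → ℤ) : Prop :=
  ∀ i1 i2 : ℕ, i1 + m * i2 < 2 * s * m →
    ∑ e ∈ range C, ∑ j ∈ range s,
      p e j * ((e.choose i1 : ℕ) : ℤ) * (((f e j).choose i2 : ℕ) : ℤ) = 0

/-- The greatest second coordinate of the rows with first coordinate `c = e - C0`. -/
def mt (A B : ℕ) (C0 β0 : ℤ) (e : ℕ) : ℤ := ((A : ℤ) * ((e : ℤ) - C0) + β0) / (B : ℤ)

/-- The class: `A c + β0 = B mt + cl`, `0 ≤ cl < B`; so `A c - B (mt - j) = cl + B j - β0`. -/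
def cl (A B : ℕ) (C0 β0 : ℤ) (e : ℕ) : ℕ := (((A : ℤ) * ((e : ℤ) - C0) + β0) % (B : ℤ)).toNat

/-- The number of first coordinates. -/
def CC (s m C1 : ℕ) : ℕ := m * (2 * s + 1) + C1

/-- The exponent of `κ`. -/
def ff (A B C : ℕ) (C0 β0 : ℤ) (e j : ℕ) : ℕ :=
  (mt A B C0 β0 (C - 1) - mt A B C0 β0 e + (j : ℤ)).toNat

end Pool.ZC
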