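import Pool.Agent.Helper1.ZC.Defs
import Mathlib

/-! Project ZC, piece GW0: zeros of polynomials in `X^B`. -/

set_option autoImplicit false

namespace Pool.ZC

open Finset Polynomial

private theorem gw0_le (a : ℂ) (k n : ℕ) (W : ℂ[X]) (hW : W.eval a ≠ 0)
    (h : (X - C a) ^ n ∣ (X - C a) ^ k * W) : n ≤ k := by
  by_contra hk
  rw [not_le] at hk
  have h1 : (X - C a) ^ k * (X - C a) ∣ (X - C a) ^ k * W := by
    rw [← pow_succ]
    exact (pow_dvd_pow _ hk).trans h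
  have h2 : (X - C a) ∣ W := (mul_dvd_mul_iff_left (pow_ne_zero _ (X_sub_C_ne_zero a))).1 h1
  exact hW (dvd_iff_isRoot.1 h2)

/-- `X^B - a^B` has a simple zero at `a ≠ 0`: so a zero of order `n` of `X^u V(X^B)` at `a` is a
zero of order `n` of `V` at `a^B`. -/
theorem expand_dvd (B u n : ℕ) (hB : 1 ≤ B) (a : ℂ) (ha : a ≠ 0) (V : ℂ[X])
    (h : (X - C a) ^ n ∣ X ^ u * expand ℂ B V) : (X - C (a ^ B)) ^ n ∣ V := by
  by_cases hV : V = 0
  · rw [hV]
    exact dvd_zero _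
  obtain ⟨V1, hV1, hnd⟩ := exists_eq_pow_rootMultiplicity_mul_and_not_dvd V hV (a ^ B)
  set k := V.rootMultiplicity (a ^ B) with hk
  set S : ℂ[X] := ∑ i ∈ range B, X ^ i * (C a) ^ (B - 1 - i) with hS
  have hSe : S * (X - C a) = X ^ B - C (a ^ B) := by
    rw [hS, geom_sum₂_mul, C_pow]
  have hSa : S.eval a ≠ 0 := by
    have h1 : S.eval a = B * a ^ (B - 1) := by
      rw [hS, eval_finsetSum]
      have h2 : ∀ i ∈ range B, eval a (X ^ i * C a ^ (B - 1 - i)) = a ^ (B - 1) := by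
        intro i hi
        have hi' := mem_range.1 hi
        rw [eval_mul, eval_pow, eval_pow, eval_X, eval_C, ← pow_add]
        congr 1
        omega
      rw [sum_congr rfl h2, sum_const, card_range, nsmul_eq_mul]
    rw [h1]
    exact mul_ne_zero (Nat.cast_ne_zero.2 (by omega)) (pow_ne_zero _ ha)
  have hV1a : V1.eval (a ^ B) ≠ 0 := fun h0 => hnd (dvd_iff_isRoot.2 h0)
  have he : X ^ u * expand ℂ B V = (X - C a) ^ k * (X ^ u * S ^ k * expand ℂ B V1) := by
    conv_lhs => rw [hV1]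
    rw [map_mul, map_pow, map_sub, expand_X, expand_C, ← hSe, mul_pow]
    ring
  have hW : (X ^ u * S ^ k * expand ℂ B V1).eval a ≠ 0 := by
    rw [eval_mul, eval_mul, eval_pow, eval_pow, eval_X, expand_eval]
    exact mul_ne_zero (mul_ne_zero (pow_ne_zero _ ha) (pow_ne_zero _ hSa)) hV1a
  rw [he] at h
  have hn := gw0_le a k n _ hW h
  rw [hV1]
  exact (pow_dvd_pow _ hn).trans (dvd_mul_right _ _)

/-- Two different zeros: if `V ≠ 0` has zeros of orders `n1` at `1` and `n2` at `b ≠ 1`, its degree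
is at least `n1 + n2`. -/
theorem two_zeros (n1 n2 : ℕ) (b : ℂ) (hb : b ≠ 1) (V : ℂ[X]) (hV : V ≠ 0)
    (h1 : (X - C 1) ^ n1 ∣ V) (h2 : (X - C b) ^ n2 ∣ V) : n1 + n2 ≤ V.natDegree := by
  have hc : IsCoprime (X - C (1 : ℂ)) (X - C b) :=
    isCoprime_X_sub_C_of_isUnit_sub (sub_ne_zero.2 (Ne.symm hb)).isUnit
  have h3 := (hc.pow (m := n1) (n := n2)).mul_dvd h1 h2
  have h4 := natDegree_le_of_dvd h3 hV
  rw [natDegree_mul (pow_ne_zero _ (X_sub_C_ne_zero _)) (pow_ne_zero _ (X_sub_C_ne_zero _)),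
    natDegree_pow, natDegree_pow, natDegree_X_sub_C, natDegree_X_sub_C, mul_one, mul_one] at h4
  exact h4

end Pool.ZC
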