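import Pool.Agent.Helper71.ZC.LD
import Pool.Agent.Helper1.ZC.GW0

/-! Project ZC, piece GW: the inequality for the Wronskian of a graded space of polynomials. -/

set_option autoImplicit false

namespace Pool.ZC

open Finset Polynomial

/-- The operator `X^j d^j`. -/
noncomputable def gwT (j : ℕ) : ℂ[X] →ₗ[ℂ] ℂ[X] :=
  (LinearMap.mulLeft ℂ (X ^ j)).comp (derivative (R := ℂ) ^ j)

theorem gwT_apply (j : ℕ) (q : ℂ[X]) : gwT j q = X ^ j * derivative^[j] q := by
  rw [gwT, LinearMap.comp_apply, LinearMap.mulLeft_apply, Module.End.pow_apply]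

theorem gwT_coeff (j : ℕ) (q : ℂ[X]) (n : ℕ) :
    (gwT j q).coeff n = ((n.descFactorial j : ℕ) : ℂ) * q.coeff n := by
  rw [gwT_apply, coeff_X_pow_mul']
  split_ifs with h
  · rw [coeff_iterate_derivative, Nat.sub_add_cancel h, nsmul_eq_mul]
  · rw [Nat.descFactorial_eq_zero_iff_lt.2 (not_le.1 h)]
    simp

theorem gwT_dvd (j : ℕ) (q : ℂ[X]) (a : ℂ) (n : ℕ) (h : (X - C a) ^ n ∣ q) :
    (X - C a) ^ (n - j) ∣ gwT j q := by
  rw [gwT_apply]
  exact Dvd.dvd.mul_left (pow_sub_dvd_iterate_derivative_of_pow_dvd j h) _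

/-- The order of the Wronskian at a point. -/
theorem gw_dvd (r : ℕ) (Φ : Submodule ℂ ℂ[X]) [FiniteDimensional ℂ Φ]
    (hr : Module.finrank ℂ Φ = r) (f : Fin r → ℂ[X]) (hf : ∀ i, f i ∈ Φ) (n : ℕ)
    (Ψ : Fin n → ℂ[X]) (hΨ : LinearIndependent ℂ Ψ) (hΨΦ : ∀ i, Ψ i ∈ Φ) (a : ℂ)
    (o : Fin n → ℕ) (ho : ∀ i, (X - C a) ^ (o i) ∣ Ψ i) :
    (X - C a) ^ (∑ i, (o i - (r - 1))) ∣
      (Matrix.of fun i j : Fin r => gwT (j : ℕ) (f i)).det := by
  classical
  set P : Fin n → Φ := fun i => ⟨Ψ i, hΨΦ i⟩ with hP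
  have hPi : LinearIndependent ℂ P := by
    apply LinearIndependent.of_comp Φ.subtype
    exact hΨ
  set b := Module.Basis.extend hPi.linearIndepOn_id with hb
  have hmem : ∀ i, P i ∈ hPi.linearIndepOn_id.extend (Set.subset_univ _) := fun i =>
    Module.Basis.subset_extend hPi.linearIndepOn_id ⟨i, rfl⟩
  have : Fintype (hPi.linearIndepOn_id.extend (Set.subset_univ _)) :=
    FiniteDimensional.fintypeBasisIndex b
  have hcard : Fintype.card (hPi.linearIndepOn_id.extend (Set.subset_univ (Set.range P))) = r := by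
    rw [← hr, Module.finrank_eq_card_basis b]
  set e := Fintype.equivFinOfCardEq hcard with he
  set g := b.reindex e with hg
  set idx : Fin n → Fin r := fun i => e ⟨P i, hmem i⟩ with hidx
  have hgi : ∀ i, ((g (idx i) : Φ) : ℂ[X]) = Ψ i := by
    intro i
    rw [hg, Module.Basis.reindex_apply, hidx]
    simp only [Equiv.symm_apply_apply]
    rw [hb, Module.Basis.extend_apply_self]
  have hinj : Function.Injective idx := by
    intro i j hij
    have h1 := hgi i
    have h2 := hgi j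
    rw [hij] at h1
    exact hΨ.injective (h1.symm.trans h2)
  set oo : Fin r → ℕ := fun k => ∑ i, if idx i = k then (o i - (r - 1)) else 0 with hoo
  have hsum : ∑ k, oo k = ∑ i, (o i - (r - 1)) := by
    rw [hoo]
    simp only
    rw [Finset.sum_comm]
    exact Finset.sum_congr rfl fun i _ => by simp
  have hrow : ∀ k (j : Fin r), (X - C a) ^ (oo k) ∣ gwT (j : ℕ) ((g k : Φ) : ℂ[X]) := by
    intro k j
    by_cases hk : ∃ i, idx i = k
    · obtain ⟨i, rfl⟩ := hk
      have h1 : oo (idx i) = o i - (r - 1) := by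
        rw [hoo]
        simp only
        rw [Finset.sum_eq_single i]
        · simp
        · intro i' _ hi'
          rw [if_neg]
          exact fun h => hi' (hinj h)
        · simp
      rw [h1, hgi]
      refine dvd_trans (pow_dvd_pow _ ?_) (gwT_dvd (j : ℕ) (Ψ i) a (o i) (ho i))
      have := j.2
      omega
    · have h1 : oo k = 0 := by
        rw [hoo]
        simp only
        refine Finset.sum_eq_zero fun i _ => ?_
        rw [if_neg fun h => hk ⟨i, h⟩]
      rw [h1, pow_zero]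
      exact one_dvd _
  choose w hw using hrow
  have hdet : (Matrix.of fun k j : Fin r => gwT (j : ℕ) ((g k : Φ) : ℂ[X])).det =
      (X - C a) ^ (∑ k, oo k) * (Matrix.of w).det := by
    have h1 : (Matrix.of fun k j : Fin r => gwT (j : ℕ) ((g k : Φ) : ℂ[X])) =
        Matrix.of fun k j => (X - C a) ^ (oo k) * (Matrix.of w) k j := by
      ext1 k j
      rw [Matrix.of_apply, Matrix.of_apply, Matrix.of_apply, hw]
    rw [h1, Matrix.det_mul_column, Finset.prod_pow_eq_pow_sum]
  have hcomb : (Matrix.of fun i j : Fin r => gwT (j : ℕ) (f i)) =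
      (Matrix.of fun i k : Fin r => (C (g.repr ⟨f i, hf i⟩ k) : ℂ[X])) *
        (Matrix.of fun k j : Fin r => gwT (j : ℕ) ((g k : Φ) : ℂ[X])) := by
    ext1 i j
    rw [Matrix.mul_apply]
    simp only [Matrix.of_apply]
    have h1 : f i = ∑ k, (g.repr ⟨f i, hf i⟩ k) • ((g k : Φ) : ℂ[X]) := by
      have h2 := congrArg (Φ.subtype) (g.sum_repr ⟨f i, hf i⟩)
      rw [map_sum] at h2
      exact h2.symm
    conv_lhs => rw [h1, map_sum]
    refine Finset.sum_congr rfl fun k _ => ?_
    rw [map_smul, smul_eq_C_mul]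
  rw [hcomb, Matrix.det_mul, hdet, hsum]
  exact Dvd.dvd.mul_left (Dvd.intro _ rfl) _

/-- A polynomial with exponents in one class. -/
theorem gw_expand (B w : ℕ) (hB : 1 ≤ B) (hw : w < B) (U : ℂ[X])
    (hU : ∀ n, U.coeff n ≠ 0 → n % B = w) : ∃ V : ℂ[X], U = X ^ w * expand ℂ B V := by
  set V : ℂ[X] := ∑ n ∈ Finset.range (U.natDegree + 1), monomial n (U.coeff (w + B * n)) with hV
  have hVc : ∀ n, V.coeff n = U.coeff (w + B * n) := by
    intro n
    rw [hV, finsetSum_coeff]
    simp only [coeff_monomial]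
    rw [Finset.sum_ite_eq']
    split_ifs with h
    · rfl
    · rw [coeff_eq_zero_of_natDegree_lt]
      have h1 : U.natDegree < n := by
        rw [Finset.mem_range] at h
        omega
      have h2 : 1 * n ≤ B * n := Nat.mul_le_mul_right n hB
      omega
  refine ⟨V, ?_⟩
  ext k
  rw [coeff_X_pow_mul']
  split_ifs with hk
  · rw [coeff_expand (by omega)]
    split_ifs with hd
    · rw [hVc, Nat.mul_div_cancel' hd]
      congr 1
      omega
    · by_contra hne
      apply hd
      have h1 := hU k hne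
      have h2 := Nat.mod_add_div k B
      rw [h1] at h2
      exact ⟨k / B, by omega⟩
  · by_contra hne
    have h1 := hU k hne
    have h2 := Nat.mod_le k B
    omega

/-- Graded Wronskian inequality.  `r = finrank (span S)`.  Proof: `f` = a basis of `span S` among
the elements of `S`; `U = det (X^j f_i^((j)))` is nonzero by `lead_det` (`θ j q = X^j * derivative^[j] q`,
`h0 = 1`), is `X^u * expand B V` since the rows are graded, `natDegree U ≤ r (C - 1)`; extend `Ψ` to a
basis of `span S`: the matrix of this basis is a constant matrix times the matrix of `f`, so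
`(X - 1)^(∑ (o i - (r - 1))) ∣ U`; the same at `ξ`; then `expand_dvd`, `two_zeros`. -/
theorem gw (B D : ℕ) (hB : 1 ≤ B) (S : Set ℂ[X])
    (hS : ∀ f ∈ S, Graded B f ∧ f.natDegree < D) (hfin : S.Finite) (n n' : ℕ)
    (Ψ : Fin n → ℂ[X]) (hΨ : LinearIndependent ℂ Ψ) (hΨS : ∀ i, Ψ i ∈ Submodule.span ℂ S)
    (o : Fin n → ℕ) (ho : ∀ i, (X - C 1) ^ (o i) ∣ Ψ i)
    (Ψ' : Fin n' → ℂ[X]) (hΨ' : LinearIndependent ℂ Ψ') (hΨS' : ∀ i, Ψ' i ∈ Submodule.span ℂ S)
    (ξ : ℂ) (hξ : ξ ≠ 0) (hξB : ξ ^ B ≠ 1)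
    (o' : Fin n' → ℕ) (ho' : ∀ i, (X - C ξ) ^ (o' i) ∣ Ψ' i) :
    B * (∑ i, (o i - (Module.finrank ℂ (Submodule.span ℂ S) - 1)) +
      ∑ i, (o' i - (Module.finrank ℂ (Submodule.span ℂ S) - 1))) ≤
      Module.finrank ℂ (Submodule.span ℂ S) * (D - 1) := by
  classical
  have : FiniteDimensional ℂ (Submodule.span ℂ S) := FiniteDimensional.span_of_finite ℂ hfin
  obtain ⟨f, hfS, -, hfi⟩ := Submodule.exists_fun_fin_finrank_span_eq ℂ S
  generalize hr : Module.finrank ℂ (Submodule.span ℂ S) = r at f hfS hfi ⊢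
  set U : ℂ[X] := (Matrix.of fun i j : Fin r => gwT (j : ℕ) (f i)).det with hU
  have hU0 : U ≠ 0 := by
    have h1 := Pool.ZC71.ld f hfi
    rw [← Matrix.det_transpose] at h1
    intro h0
    apply h1
    rw [← h0, hU]
    congr 1
    ext1 i j
    rw [Matrix.of_apply, gwT_apply]
    rfl
  have hfm : ∀ i, f i ∈ Submodule.span ℂ S := fun i => Submodule.subset_span (hfS i)
  have d1 : (X - C 1) ^ (∑ i, (o i - (r - 1))) ∣ U :=
    gw_dvd r (Submodule.span ℂ S) hr f hfm n Ψ hΨ hΨS 1 o ho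
  have d2 : (X - C ξ) ^ (∑ i, (o' i - (r - 1))) ∣ U :=
    gw_dvd r (Submodule.span ℂ S) hr f hfm n' Ψ' hΨ' hΨS' ξ o' ho'
  -- the determinant is graded
  choose u hu using fun i => (hS (f i) (hfS i)).1
  have hcl : ∀ (t : Finset (Fin r)) (F : Fin r → ℂ[X]) (v : Fin r → ℕ),
      (∀ i, ∀ m, (F i).coeff m ≠ 0 → m % B = v i) → ∀ m, (∏ i ∈ t, F i).coeff m ≠ 0 →
        m % B = (∑ i ∈ t, v i) % B := by
    intro t F v hF
    induction t using Finset.induction_on with
    | empty =>
      intro m hm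
      rw [Finset.prod_empty, coeff_one] at hm
      rw [Finset.sum_empty]
      split_ifs at hm with h
      · rw [h]
      · exact absurd rfl hm
    | insert i t hit ih =>
      intro m hm
      rw [Finset.prod_insert hit, coeff_mul] at hm
      obtain ⟨x, hx, hx0⟩ := Finset.exists_ne_zero_of_sum_ne_zero hm
      have h1 := hF i x.1 (left_ne_zero_of_mul hx0)
      have h2 := ih x.2 (right_ne_zero_of_mul hx0)
      rw [HasAntidiagonal.mem_antidiagonal] at hx
      rw [← hx, Nat.add_mod, h2, Finset.sum_insert hit, Nat.add_mod (v i)]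
      congr 2
      rw [h1, ← h1, Nat.mod_mod]
  have hUg : ∀ m, U.coeff m ≠ 0 → m % B = (∑ i, u i) % B := by
    intro m hm
    rw [hU, Matrix.det_apply, finsetSum_coeff] at hm
    obtain ⟨σ, -, hσ⟩ := Finset.exists_ne_zero_of_sum_ne_zero hm
    have h1 : (∏ i, (Matrix.of fun i j : Fin r => gwT (j : ℕ) (f i)) (σ i) i).coeff m ≠ 0 := by
      intro h0
      apply hσ
      rw [Units.smul_def, coeff_smul, h0, smul_zero]
    have h2 := hcl Finset.univ (fun i => (Matrix.of fun i j : Fin r => gwT (j : ℕ) (f i)) (σ i) i)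
      (fun i => u (σ i)) (by
        intro i m hm
        rw [Matrix.of_apply, gwT_coeff] at hm
        exact hu (σ i) m (right_ne_zero_of_mul hm)) m h1
    rw [h2, Equiv.sum_comp σ u]
  obtain ⟨V, hV⟩ := gw_expand B ((∑ i, u i) % B) hB (Nat.mod_lt _ (by omega)) U hUg
  have hV0 : V ≠ 0 := by
    rintro rfl
    rw [map_zero, mul_zero] at hV
    exact hU0 hV
  have e1 := expand_dvd B _ _ hB 1 one_ne_zero V (hV ▸ d1)
  have e2 := expand_dvd B _ _ hB ξ hξ V (hV ▸ d2)
  rw [one_pow] at e1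
  have e3 := two_zeros _ _ (ξ ^ B) hξB V hV0 e1 e2
  -- degrees
  have hdeg : U.natDegree ≤ r * (D - 1) := by
    rw [hU, Matrix.det_apply]
    refine natDegree_sum_le_of_forall_le _ _ fun σ _ => ?_
    refine (natDegree_smul_le _ _).trans ?_
    refine (natDegree_prod_le _ _).trans ?_
    have : ∀ i ∈ (Finset.univ : Finset (Fin r)),
        ((Matrix.of fun i j : Fin r => gwT (j : ℕ) (f i)) (σ i) i).natDegree ≤ D - 1 := by
      intro i _
      rw [Matrix.of_apply, natDegree_le_iff_coeff_eq_zero]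
      intro N hN
      have h1 := (hS (f (σ i)) (hfS (σ i))).2
      rw [gwT_coeff, coeff_eq_zero_of_natDegree_lt (by omega), mul_zero]
    refine (Finset.sum_le_card_nsmul _ _ _ this).trans ?_
    simp
  have hdegV : V.natDegree * B ≤ U.natDegree := by
    rw [hV, natDegree_X_pow_mul]
    · rw [natDegree_expand]
      omega
    · rw [Ne, expand_eq_zero (by omega)]
      exact hV0
  calc B * (∑ i, (o i - (r - 1)) + ∑ i, (o' i - (r - 1))) ≤ B * V.natDegree :=
        Nat.mul_le_mul_left B e3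
    _ = V.natDegree * B := Nat.mul_comm _ _
    _ ≤ U.natDegree := hdegV
    _ ≤ r * (D - 1) := hdeg

end Pool.ZC
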