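import Pool.Agent.Helper1.ZC.Defs
import Mathlib

/-! Project ZC, piece LD: bases with distinct degrees, leading determinants. -/

set_option autoImplicit false

namespace Pool.ZC

open Finset Polynomial

variable {K : Type} [Field K] [CharZero K]

/-- A space of polynomials of dimension `r` contains `r` polynomials with distinct degrees.  Proof:
induction on `C`; if some element has a nonzero coefficient at `C`, the kernel of this coefficient
has dimension one less. -/
theorem distinct_deg (C : ℕ) (Φ : Submodule K K[X]) (hΦ : ∀ f ∈ Φ, ∀ n, C ≤ n → f.coeff n = 0) :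
    ∃ h : Fin (Module.finrank K Φ) → K[X], (∀ i, h i ∈ Φ) ∧ (∀ i, h i ≠ 0) ∧
      StrictMono fun i => (h i).natDegree := by
  sorry

/-- Leading determinant: the operators `θ j` map `X^d` to `h0^j d(d-1)..(d-j+1) X^d` plus lower
terms.  Proof: `q` may be replaced by a family `h` with distinct degrees in its span (the matrix of
`h` is a constant matrix times the matrix of `q`); the coefficient of the determinant at
`∑ natDegree (h i)` is `∏ leadingCoeff (h i) * ∏ h0 ^ j * det (descFactorial (d i) j)`, and the last
determinant is the Vandermonde determinant of the `d i`. -/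
theorem lead_det (r : ℕ) (θ : Fin r → K[X] →ₗ[K] K[X]) (h0 : K) (hh : h0 ≠ 0)
    (hθ : ∀ (j : Fin r) (q : K[X]) (d : ℕ), q.natDegree ≤ d → (θ j q).natDegree ≤ d ∧
      (θ j q).coeff d = h0 ^ (j : ℕ) * ((d.descFactorial (j : ℕ) : ℕ) : K) * q.coeff d)
    (q : Fin r → K[X]) (hq : LinearIndependent K q) :
    (Matrix.of fun i j => θ j (q i)).det ≠ 0 := by
  sorry

end Pool.ZC
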