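import Pool.Agent.Helper1.ZC.Defs
import Mathlib

/-! Project ZC, piece RD: relations of a family. -/

set_option autoImplicit false

namespace Pool.ZC

open Finset Polynomial

/-- Rank and nullity for a family. -/
theorem rel_data (N : ℕ) (ψ : Fin N → ℂ[X]) :
    ∃ (n e : ℕ) (J : Fin n → Fin N) (q : Fin e → Fin N → ℂ), n + e = N ∧ Function.Injective J ∧
      LinearIndependent ℂ (fun i => ψ (J i)) ∧ LinearIndependent ℂ q ∧
      ∀ i, ∑ l, C (q i l) * ψ l = 0 := by
  sorry

/-- `n` different positive integers have sum at least `1 + .. + n`. -/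
theorem sum_ord (N n : ℕ) (J : Fin n → Fin N) (hJ : Function.Injective J) :
    n * (n + 1) ≤ 2 * ∑ i, (N - (J i : ℕ)) := by
  sorry

end Pool.ZC
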