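import Pool.Agent.Helper1.ZC.ZLB

/-! Project ZC, piece ZLA: the zero lemma. -/

set_option autoImplicit false

namespace Pool.ZC

open Finset Polynomial

/-- Vanishing at `ξ` from sums of binomials. -/
theorem zla_dvd (k N : ℕ) (ξ : ℂ) (hξ : ξ ≠ 0) (c : ℕ → ℂ)
    (h : ∀ a < k, ∑ e ∈ range N, c e * ξ ^ e * ((e.choose a : ℕ) : ℂ) = 0) :
    (X - C ξ) ^ k ∣ ∑ e ∈ range N, C (c e) * X ^ e := by
  rw [X_sub_C_pow_dvd_iff, X_pow_dvd_iff]
  intro a ha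
  have e1 : (∑ e ∈ range N, C (c e) * X ^ e : ℂ[X]).comp (X + C ξ) =
      taylor ξ (∑ e ∈ range N, C (c e) * X ^ e) := rfl
  rw [e1, taylor_coeff, map_sum, eval_finsetSum]
  have e2 : ∀ e ∈ range N, (hasseDeriv a (C (c e) * X ^ e : ℂ[X])).eval ξ * ξ ^ a =
      c e * ξ ^ e * ((e.choose a : ℕ) : ℂ) := by
    intro e _
    rw [C_mul_X_pow_eq_monomial, hasseDeriv_monomial, eval_monomial]
    rcases le_or_gt a e with hae | hae
    · have : ξ ^ e = ξ ^ (e - a) * ξ ^ a := by rw [← pow_add, Nat.sub_add_cancel hae]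
      rw [this]
      ring
    · rw [Nat.choose_eq_zero_of_lt hae]
      simp
  have e3 : (∑ e ∈ range N, (hasseDeriv a (C (c e) * X ^ e : ℂ[X])).eval ξ) * ξ ^ a = 0 := by
    rw [Finset.sum_mul, Finset.sum_congr rfl e2]
    exact h a ha
  exact (mul_eq_zero.mp e3).resolve_right (pow_ne_zero _ hξ)

/-- The polynomials of the classes. -/
noncomputable def zlaφ (A B : ℕ) (C0 β0 : ℤ) (N : ℕ) (p : ℕ → ℕ → ℤ) (i j : ℕ) : ℂ[X] :=
  ∑ e ∈ range N, if cl A B C0 β0 e = i then C (p e j : ℂ) * X ^ e else 0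

theorem zlaφ_coeff (A B : ℕ) (C0 β0 : ℤ) (N : ℕ) (p : ℕ → ℕ → ℤ) (i j n : ℕ) :
    (zlaφ A B C0 β0 N p i j).coeff n =
      if n < N ∧ cl A B C0 β0 n = i then (p n j : ℂ) else 0 := by
  unfold zlaφ
  rw [finsetSum_coeff]
  by_cases hn : n < N
  · rw [Finset.sum_eq_single n]
    · by_cases h : cl A B C0 β0 n = i
      · rw [if_pos h, if_pos ⟨hn, h⟩, coeff_C_mul, coeff_X_pow_self, mul_one]
      · rw [if_neg h, if_neg fun h' => h h'.2, coeff_zero]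
    · intro e _ he
      split_ifs
      · rw [coeff_C_mul, coeff_X_pow, if_neg (Ne.symm he), mul_zero]
      · rw [coeff_zero]
    · intro h
      exact absurd (Finset.mem_range.mpr hn) h
  · rw [if_neg fun h' => hn h'.1]
    refine Finset.sum_eq_zero fun e he => ?_
    have hne : n ≠ e := by
      rintro rfl
      exact hn (Finset.mem_range.mp he)
    split_ifs
    · rw [coeff_C_mul, coeff_X_pow, if_neg hne, mul_zero]
    · rw [coeff_zero]

/-- Euclidean division. -/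
theorem zla_div (A B : ℕ) (hB : 0 < B) (C0 β0 : ℤ) (e : ℕ) :
    (A : ℤ) * ((e : ℤ) - C0) + β0 = (B : ℤ) * mt A B C0 β0 e + (cl A B C0 β0 e : ℤ) := by
  have hB' : (B : ℤ) ≠ 0 := by exact_mod_cast hB.ne'
  unfold mt cl
  rw [Int.toNat_of_nonneg (Int.emod_nonneg _ hB')]
  exact (Int.mul_ediv_add_emod _ _).symm

theorem zla_cl_lt (A B : ℕ) (hB : 0 < B) (C0 β0 : ℤ) (e : ℕ) : cl A B C0 β0 e < B := by
  have hB' : (B : ℤ) ≠ 0 := by exact_mod_cast hB.ne'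
  have h1 := Int.emod_lt_of_pos ((A : ℤ) * ((e : ℤ) - C0) + β0) (by exact_mod_cast hB : (0 : ℤ) < B)
  have h2 := Int.emod_nonneg ((A : ℤ) * ((e : ℤ) - C0) + β0) hB'
  unfold cl
  omega

/-- The sum over the classes is the sum over the exponents. -/
theorem zla_sum (A B : ℕ) (hB : 0 < B) (C0 β0 : ℤ) (N s : ℕ) (p : ℕ → ℕ → ℤ) (w : ℕ → ℕ → ℂ) :
    ∑ i ∈ range B, ∑ j ∈ range s, C (w i j) * zlaφ A B C0 β0 N p i j =
      ∑ e ∈ range N, C (∑ j ∈ range s, w (cl A B C0 β0 e) j * (p e j : ℂ)) * X ^ e := by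
  have e1 : ∀ i ∈ range B, ∀ j ∈ range s, C (w i j) * zlaφ A B C0 β0 N p i j =
      ∑ e ∈ range N, if cl A B C0 β0 e = i then C (w i j * (p e j : ℂ)) * X ^ e else 0 := by
    intro i _ j _
    unfold zlaφ
    rw [Finset.mul_sum]
    refine Finset.sum_congr rfl fun e _ => ?_
    split_ifs
    · rw [C_mul, mul_assoc]
    · rw [mul_zero]
  rw [Finset.sum_congr rfl fun i hi => Finset.sum_congr rfl fun j hj => e1 i hi j hj]
  rw [Finset.sum_congr rfl fun i _ => Finset.sum_comm]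
  rw [Finset.sum_comm]
  refine Finset.sum_congr rfl fun e _ => ?_
  rw [Finset.sum_eq_single (cl A B C0 β0 e)]
  · simp only [if_true]
    rw [map_sum, Finset.sum_mul]
  · intro i _ hi
    refine Finset.sum_eq_zero fun j _ => ?_
    rw [if_neg (Ne.symm hi)]
  · intro h
    exact absurd (Finset.mem_range.mpr (zla_cl_lt A B hB C0 β0 e)) h

theorem zla_choose (e i : ℕ) : (e : ℂ) * ((e.choose i : ℕ) : ℂ) =
    ((i : ℂ) + 1) * ((e.choose (i + 1) : ℕ) : ℂ) + (i : ℂ) * ((e.choose i : ℕ) : ℂ) := by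
  have h := Nat.choose_succ_right_eq e i
  rcases le_or_gt i e with hi | hi
  · have h1 : ((e - i : ℕ) : ℂ) = (e : ℂ) - (i : ℂ) := Nat.cast_sub hi
    have h2 : ((e.choose (i + 1) : ℕ) : ℂ) * ((i : ℂ) + 1) =
        ((e.choose i : ℕ) : ℂ) * ((e - i : ℕ) : ℂ) := by exact_mod_cast h
    rw [h1] at h2
    linear_combination -h2
  · rw [Nat.choose_eq_zero_of_lt hi, Nat.choose_eq_zero_of_lt (by omega)]
    simp

/-- The orthogonality relations with powers of an affine function. -/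
theorem zla_orth (m s N : ℕ) (hm : 1 ≤ m) (f : ℕ → ℕ → ℕ) (p : ℕ → ℕ → ℤ) (H0 : Orth m s N f p)
    (α β γ : ℂ) (l : ℕ) : ∀ i1 i2 : ℕ, i1 + m * i2 + m * l < 2 * s * m →
    ∑ e ∈ range N, ∑ j ∈ range s, (p e j : ℂ) * ((e.choose i1 : ℕ) : ℂ) *
      (((f e j).choose i2 : ℕ) : ℂ) * (α * e + β * (f e j : ℕ) + γ) ^ l = 0 := by
  induction l with
  | zero =>
    intro i1 i2 h
    have h1 := H0 i1 i2 (by omega)
    simp only [pow_zero, mul_one]
    exact_mod_cast h1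
  | succ l ih =>
    intro i1 i2 h
    have h1 := ih i1 i2 (by nlinarith)
    have h2 := ih (i1 + 1) i2 (by nlinarith)
    have h3 := ih i1 (i2 + 1) (by nlinarith)
    have key : ∑ e ∈ range N, ∑ j ∈ range s, (p e j : ℂ) * ((e.choose i1 : ℕ) : ℂ) *
        (((f e j).choose i2 : ℕ) : ℂ) * (α * e + β * (f e j : ℕ) + γ) ^ (l + 1) =
      α * ((i1 : ℂ) + 1) * (∑ e ∈ range N, ∑ j ∈ range s, (p e j : ℂ) *
        ((e.choose (i1 + 1) : ℕ) : ℂ) * (((f e j).choose i2 : ℕ) : ℂ) *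
          (α * e + β * (f e j : ℕ) + γ) ^ l) +
      β * ((i2 : ℂ) + 1) * (∑ e ∈ range N, ∑ j ∈ range s, (p e j : ℂ) *
        ((e.choose i1 : ℕ) : ℂ) * (((f e j).choose (i2 + 1) : ℕ) : ℂ) *
          (α * e + β * (f e j : ℕ) + γ) ^ l) +
      (α * i1 + β * i2 + γ) * (∑ e ∈ range N, ∑ j ∈ range s, (p e j : ℂ) *
        ((e.choose i1 : ℕ) : ℂ) * (((f e j).choose i2 : ℕ) : ℂ) *
          (α * e + β * (f e j : ℕ) + γ) ^ l) := by
      simp only [Finset.mul_sum, ← Finset.sum_add_distrib]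
      refine Finset.sum_congr rfl fun e _ => Finset.sum_congr rfl fun j _ => ?_
      have e1 := zla_choose e i1
      have e2 := zla_choose (f e j) i2
      rw [pow_succ]
      linear_combination (p e j : ℂ) * (α * e + β * (f e j : ℕ) + γ) ^ l * α *
        (((f e j).choose i2 : ℕ) : ℂ) * e1 + (p e j : ℂ) * (α * e + β * (f e j : ℕ) + γ) ^ l * β *
        ((e.choose i1 : ℕ) : ℂ) * e2
    rw [key, h1, h2, h3]
    ring

/-- The zero lemma.  Proof: `ζ^B = κ`, `ξ = ρ ζ^(-A)`, `φ i j = ∑_(e < C, cl e = i) p e j X^e`;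
`b = cl e + B j - β0 = A (e - C0) - B (mt e - j)`, so `κ^(-(mt e - j)) = ζ^(b - A (e - C0))`;
`Orth` gives `∑ p (e.choose i) b^l = 0` for `i + m l < 2 s m` (`b` is an affine function of `e` and
`f e j`, weight `1 ≤ m`), i.e. the vanishing at `1`; if all sums of the conclusion vanish, then
`∑ p ξ^e ζ^b (e.choose a) = 0` for `a < m`, i.e. the vanishing at `ξ`. -/
theorem zero_lemma (s m C1 A B : ℕ) (C0 β0 M0 : ℤ) (hAB : A.Coprime B) (hs : 1 ≤ s)
    (hB1 : 32 * s ^ 4 ≤ B) (hB2 : 8 * s ^ 2 * B ≤ m) (hC1 : 4 * s * C1 ≤ m)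
    (ρ κ : ℂ) (hρ : ρ ≠ 0) (hκ : κ ≠ 0) (hnd : ρ ^ B ≠ κ ^ A) (f : ℕ → ℕ → ℕ)
    (hf : ∀ e < CC s m C1, ∀ j < s, (f e j : ℤ) = M0 - mt A B C0 β0 e + (j : ℤ))
    (p : ℕ → ℕ → ℤ) (hp : ∃ e < CC s m C1, ∃ j < s, p e j ≠ 0)
    (H0 : Orth m s (CC s m C1) f p) :
    ∃ a < m, ∑ e ∈ range (CC s m C1), ∑ j ∈ range s,
      (p e j : ℂ) * ρ ^ e * κ ^ (-(mt A B C0 β0 e - (j : ℤ))) * ((e.choose a : ℕ) : ℂ) ≠ 0 := by
  by_contra hcon
  push Not at hcon
  have hs4 : 1 ≤ s ^ 4 := Nat.one_le_pow _ _ hs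
  have hB : 0 < B := by omega
  have hB' : (0 : ℤ) < B := by exact_mod_cast hB
  have hm : 1 ≤ m := by
    have h1 : 1 ≤ 8 * s ^ 2 * B := Nat.mul_pos (Nat.mul_pos (by norm_num) (pow_pos hs 2)) hB
    omega
  set N := CC s m C1 with hN
  obtain ⟨ζ, hζ⟩ := IsAlgClosed.exists_pow_nat_eq κ hB
  have hζ0 : ζ ≠ 0 := by
    rintro rfl
    rw [zero_pow hB.ne'] at hζ
    exact hκ hζ.symm
  set ξ : ℂ := ρ * ζ ^ (-(A : ℤ)) with hξ
  have hξ0 : ξ ≠ 0 := mul_ne_zero hρ (zpow_ne_zero _ hζ0)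
  have hξB : ξ ^ B ≠ 1 := by
    intro h
    apply hnd
    rw [hξ, mul_pow, ← zpow_natCast (ζ ^ (-(A : ℤ))) B, ← zpow_mul, mul_comm (-(A : ℤ)) (B : ℤ),
      zpow_mul, zpow_natCast, hζ, zpow_neg, zpow_natCast] at h
    have h2 : κ ^ A ≠ 0 := pow_ne_zero _ hκ
    field_simp at h
    exact h
  -- the inverse of `A`
  obtain ⟨A', hA'⟩ : ∃ A' : ℤ, (B : ℤ) ∣ (A : ℤ) * A' - 1 := by
    have h1 : IsCoprime (A : ℤ) (B : ℤ) := Nat.isCoprime_iff_coprime.mpr hAB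
    obtain ⟨a, b, hab⟩ := h1
    exact ⟨a, -b, by linear_combination hab⟩
  let u : ℕ → ℕ := fun i => ((A' * ((i : ℤ) - β0) + C0) % (B : ℤ)).toNat
  have hu' : ∀ i, ((u i : ℕ) : ℤ) = (A' * ((i : ℤ) - β0) + C0) % (B : ℤ) := fun i =>
    Int.toNat_of_nonneg (Int.emod_nonneg _ hB'.ne')
  refine zl_core s m C1 B β0 hs hB1 hB2 hC1 (zlaφ A B C0 β0 N p) u ?_ ?_ ?_ ?_ ζ ξ hζ0 hξ0 hξB ?_
  · -- the classes are different
    intro i hi i' hi' h
    have h1 : (A' * ((i : ℤ) - β0) + C0) % (B : ℤ) = (A' * ((i' : ℤ) - β0) + C0) % (B : ℤ) := by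
      rw [← hu', ← hu', h]
    have h2 : (B : ℤ) ∣ (A' * ((i : ℤ) - β0) + C0) - (A' * ((i' : ℤ) - β0) + C0) :=
      Int.dvd_of_emod_eq_zero (Int.emod_eq_emod_iff_emod_sub_eq_zero.mp h1)
    have h3 : (B : ℤ) ∣ (i : ℤ) - i' := by
      have e1 : (i : ℤ) - i' = (A : ℤ) * ((A' * ((i : ℤ) - β0) + C0) - (A' * ((i' : ℤ) - β0) + C0)) -
          ((A : ℤ) * A' - 1) * ((i : ℤ) - i') := by ring
      rw [e1]
      exact dvd_sub (Dvd.dvd.mul_left h2 _) (Dvd.dvd.mul_right hA' _)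
    obtain ⟨c, hc⟩ := h3
    have h4 : c = 0 := by
      by_contra h5
      rcases lt_or_gt_of_ne h5 with h6 | h6
      · nlinarith
      · nlinarith
    rw [h4, mul_zero] at hc
    omega
  · -- the exponents
    intro i _ j _ n hn
    rw [zlaφ_coeff] at hn
    split_ifs at hn with h
    · refine ⟨?_, h.1⟩
      have h1 := zla_div A B hB C0 β0 n
      rw [h.2] at h1
      have h2 : ((n % B : ℕ) : ℤ) = ((u i : ℕ) : ℤ) := by
        rw [hu']
        push_cast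
        apply Int.emod_eq_emod_iff_emod_sub_eq_zero.mpr
        apply Int.emod_eq_zero_of_dvd
        have e1 : (n : ℤ) - (A' * ((i : ℤ) - β0) + C0) = (B : ℤ) * (A' * mt A B C0 β0 n) -
            ((A : ℤ) * A' - 1) * ((n : ℤ) - C0) := by
          linear_combination A' * h1
        rw [e1]
        exact dvd_sub (Dvd.intro _ rfl) (Dvd.dvd.mul_right hA' _)
      exact_mod_cast h2
    · exact absurd rfl hn
  · -- not all are zero
    obtain ⟨e, he, j, hj, hpe⟩ := hp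
    refine ⟨cl A B C0 β0 e, zla_cl_lt A B hB C0 β0 e, j, hj, fun h => ?_⟩
    have h1 := zlaφ_coeff A B C0 β0 N p (cl A B C0 β0 e) j e
    rw [h, if_pos ⟨he, rfl⟩, coeff_zero] at h1
    exact hpe (by exact_mod_cast h1.symm)
  · -- vanishing at `1`
    intro l hl
    rw [zla_sum A B hB C0 β0 N s p (fun i j => (((i : ℤ) + (B : ℤ) * (j : ℤ) - β0 : ℤ) : ℂ) ^ l)]
    refine zla_dvd _ _ 1 one_ne_zero _ fun a ha => ?_
    have h0 : a + m * 0 + m * l < 2 * s * m := by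
      have e1 : m * (2 * s - l) + m * l = 2 * s * m := by
        rw [← Nat.mul_add, Nat.sub_add_cancel hl.le, mul_comm]
      omega
    have h1 := zla_orth m s N hm f p H0 (A : ℂ) (B : ℂ) (-((A : ℂ) * C0 + B * M0)) l a 0 h0
    rw [← h1]
    refine Finset.sum_congr rfl fun e he => ?_
    rw [one_pow, mul_one, Finset.sum_mul]
    refine Finset.sum_congr rfl fun j hj => ?_
    have h2 := hf e (Finset.mem_range.mp he) j (Finset.mem_range.mp hj)
    have h3 := zla_div A B hB C0 β0 e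
    have h4 : ((cl A B C0 β0 e : ℤ) + (B : ℤ) * (j : ℤ) - β0 : ℤ) =
        (A : ℤ) * e + (B : ℤ) * (f e j : ℕ) - ((A : ℤ) * C0 + B * M0) := by
      rw [h2]
      linear_combination -h3
    have h5 : (((cl A B C0 β0 e : ℤ) + (B : ℤ) * (j : ℤ) - β0 : ℤ) : ℂ) =
        (A : ℂ) * e + (B : ℂ) * (f e j : ℕ) + -((A : ℂ) * C0 + B * M0) := by
      rw [h4]
      push_cast
      ring
    rw [h5, Nat.choose_zero_right, Nat.cast_one, mul_one]
    ring
  · -- vanishing at `ξ`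
    rw [zla_sum A B hB C0 β0 N s p (fun i j => ζ ^ ((i : ℤ) + (B : ℤ) * (j : ℤ) - β0))]
    refine zla_dvd _ _ ξ hξ0 _ fun a ha => ?_
    have h1 := hcon a ha
    have h2 : ∑ e ∈ range N, (∑ j ∈ range s,
        ζ ^ ((cl A B C0 β0 e : ℤ) + (B : ℤ) * (j : ℤ) - β0) * (p e j : ℂ)) * ξ ^ e *
          ((e.choose a : ℕ) : ℂ) =
        ζ ^ (-((A : ℤ) * C0)) * ∑ e ∈ range N, ∑ j ∈ range s,
          (p e j : ℂ) * ρ ^ e * κ ^ (-(mt A B C0 β0 e - (j : ℤ))) * ((e.choose a : ℕ) : ℂ) := by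
      rw [Finset.mul_sum]
      refine Finset.sum_congr rfl fun e _ => ?_
      rw [Finset.sum_mul, Finset.sum_mul, Finset.mul_sum]
      refine Finset.sum_congr rfl fun j _ => ?_
      have h3 := zla_div A B hB C0 β0 e
      have h4 : ζ ^ ((cl A B C0 β0 e : ℤ) + (B : ℤ) * (j : ℤ) - β0) * ξ ^ e =
          ζ ^ (-((A : ℤ) * C0)) * (ρ ^ e * κ ^ (-(mt A B C0 β0 e - (j : ℤ)))) := by
        rw [hξ, mul_pow, ← hζ, ← zpow_natCast (ζ ^ (-(A : ℤ))) e, ← zpow_mul,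
          ← zpow_natCast ζ B, ← zpow_mul]
        have h5 : ((cl A B C0 β0 e : ℤ) + (B : ℤ) * (j : ℤ) - β0) + -(A : ℤ) * e =
            -((A : ℤ) * C0) + (B : ℤ) * -(mt A B C0 β0 e - (j : ℤ)) := by
          linear_combination -h3
        have h6 : ζ ^ ((cl A B C0 β0 e : ℤ) + (B : ℤ) * (j : ℤ) - β0) * ζ ^ (-(A : ℤ) * e) =
            ζ ^ (-((A : ℤ) * C0)) * ζ ^ ((B : ℤ) * -(mt A B C0 β0 e - (j : ℤ))) := by
          rw [← zpow_add₀ hζ0, ← zpow_add₀ hζ0, h5]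
        linear_combination ρ ^ e * h6
      linear_combination (p e j : ℂ) * ((e.choose a : ℕ) : ℂ) * h4
    rw [h2, h1, mul_zero]

end Pool.ZC
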