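import Pool.Agent.Helper1.ZC.Defs
import Pool.Agent.Helper55.ZC.ZLB

/-! Project ZC, piece ZLB: the zero lemma, algebraic form.  Proof in `Helper55/ZC`. -/

set_option autoImplicit false

namespace Pool.ZC

open Finset Polynomial

/-- The zero lemma for graded polynomials (note 2769, step (5), cases (i), (ii), (iii)). -/
theorem zl_core (s m C1 B : ℕ) (β0 : ℤ) (hs : 1 ≤ s) (hB1 : 32 * s ^ 4 ≤ B)
    (hB2 : 8 * s ^ 2 * B ≤ m) (hC1 : 4 * s * C1 ≤ m)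
    (φ : ℕ → ℕ → ℂ[X]) (u : ℕ → ℕ) (hu : ∀ i < B, ∀ i' < B, u i = u i' → i = i')
    (hφ : ∀ i < B, ∀ j < s, ∀ n, (φ i j).coeff n ≠ 0 → n % B = u i ∧ n < CC s m C1)
    (hne : ∃ i < B, ∃ j < s, φ i j ≠ 0)
    (h1 : ∀ l < 2 * s, (X - C 1) ^ (m * (2 * s - l)) ∣
      ∑ i ∈ range B, ∑ j ∈ range s, C ((((i : ℤ) + (B : ℤ) * (j : ℤ) - β0 : ℤ) : ℂ) ^ l) * φ i j)
    (ζ ξ : ℂ) (hζ : ζ ≠ 0) (hξ : ξ ≠ 0) (hξB : ξ ^ B ≠ 1)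
    (h2 : (X - C ξ) ^ m ∣
      ∑ i ∈ range B, ∑ j ∈ range s, C (ζ ^ ((i : ℤ) + (B : ℤ) * (j : ℤ) - β0)) * φ i j) :
    False :=
  zl_core_55 s m C1 B β0 hs hB1 hB2 hC1 φ u hu hφ hne h1 ζ ξ hζ hξ hξB h2

end Pool.ZC
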